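import Mathlib

/-!
# The quadratic inequality

`a, b, c, d, e` are the relative sizes of the classes `0, 1, 2, 3, 4` of the pentagon.
-/

set_option autoImplicit false

namespace Pool.Agent.MP_fb5c70_coU

section

variable {a b c d e : ℝ}

theorem quad_b (hs : a = 1 - b - c - d - e) (hb : 0 ≤ b) (he : 0 ≤ e)
    (ha : a ≤ 101 / 250) (hc' : c ≤ 101 / 250)
    (h2 : e ≤ d) (h3 : b ≤ c) (h1 : b + e ≤ a + c) (h4 : b + e ≤ d + a) (hcd : d ≤ c)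
    (hE : a * b + b * c + c * d + d * e + e * a ≤ 1 / 10) : b ≤ 13 / 200 := by
  subst hs
  nlinarith only [mul_nonneg hb hb, mul_nonneg hb (sub_nonneg.2 h2), mul_nonneg hb (sub_nonneg.2 hcd), mul_nonneg he he,
    mul_nonneg he (sub_nonneg.2 hc'), mul_nonneg he (sub_nonneg.2 h2), mul_nonneg he (sub_nonneg.2 h4),
    mul_nonneg (sub_nonneg.2 ha) (sub_nonneg.2 h3), mul_nonneg (sub_nonneg.2 ha) (sub_nonneg.2 h4),
    mul_nonneg (sub_nonneg.2 hc') (sub_nonneg.2 h3), mul_nonneg (sub_nonneg.2 hc') (sub_nonneg.2 hcd),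
    mul_nonneg (sub_nonneg.2 hc') (sub_nonneg.2 h1), hE]

theorem quad_e (hs : a = 1 - b - c - d - e) (ha0 : 0 ≤ a) (hb : 0 ≤ b) (he : 0 ≤ e)
    (ha : a ≤ 101 / 250) (hc' : c ≤ 101 / 250)
    (h2 : e ≤ d) (h3 : b ≤ c) (h4 : b + e ≤ d + a) (hcd : d ≤ c)
    (hE : a * b + b * c + c * d + d * e + e * a ≤ 1 / 10) : e ≤ 3 / 25 := by
  subst hs
  nlinarith only [hb, mul_nonneg hb ha0, mul_nonneg hb (sub_nonneg.2 h2), mul_nonneg hb (sub_nonneg.2 h3), mul_nonneg hb (sub_nonneg.2 hcd),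
    mul_nonneg he (sub_nonneg.2 h2), mul_nonneg ha0 (sub_nonneg.2 hc'), mul_nonneg (sub_nonneg.2 ha) (sub_nonneg.2 h2),
    mul_nonneg (sub_nonneg.2 ha) (sub_nonneg.2 hcd), mul_nonneg (sub_nonneg.2 ha) (sub_nonneg.2 h4),
    mul_nonneg (sub_nonneg.2 hc') (sub_nonneg.2 hcd), h2, mul_nonneg (sub_nonneg.2 h2) (sub_nonneg.2 hcd), hE]

theorem quad_ac (hs : a = 1 - b - c - d - e) (ha0 : 0 ≤ a) (hb : 0 ≤ b) (he : 0 ≤ e)
    (ha : a ≤ 101 / 250) (hc' : c ≤ 101 / 250)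
    (h2 : e ≤ d) (h3 : b ≤ c) (h1 : b + e ≤ a + c) (h4 : b + e ≤ d + a) (hcd : d ≤ c)
    (hE : a * b + b * c + c * d + d * e + e * a ≤ 1 / 10) : 659 / 1000 ≤ a + c := by
  subst hs
  nlinarith only [mul_nonneg hb ha0, mul_nonneg hb (sub_nonneg.2 hcd), mul_nonneg hb (sub_nonneg.2 h1),
    mul_nonneg he ha0, mul_nonneg he (sub_nonneg.2 hc'), mul_nonneg he (sub_nonneg.2 h4), mul_nonneg ha0 (sub_nonneg.2 hcd),
    mul_nonneg (sub_nonneg.2 ha) (sub_nonneg.2 h2), mul_nonneg (sub_nonneg.2 ha) (sub_nonneg.2 h3), mul_nonneg (sub_nonneg.2 ha) (sub_nonneg.2 h4),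
    mul_nonneg (sub_nonneg.2 hc') (sub_nonneg.2 hcd), mul_nonneg (sub_nonneg.2 h2) (sub_nonneg.2 hcd), hE]

/-- The exponent of the estimate, with `δ = (1, 1/5, 4/5, 3/5, 1/2)`. -/
theorem quad (hs : a + b + c + d + e = 1) (ha0 : 0 ≤ a) (hb : 0 ≤ b) (he : 0 ≤ e)
    (ha : a ≤ 101 / 250) (hc' : c ≤ 101 / 250)
    (h2 : e ≤ d) (h3 : b ≤ c) (h1 : b + e ≤ a + c) (h4 : b + e ≤ d + a) (hcd : d ≤ c)
    (hE : a * b + b * c + c * d + d * e + e * a ≤ 1 / 10) :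
    a * (21 / 20 - 5 + 5 * (1 - b - e)) + b * (-(23 / 10) - 5 + 25 * (1 - a - c)) +
      c * (-(21 / 50) - 5 + 25 / 4 * (1 - b - d)) + d * (-(167 / 100) - 5 + 25 / 3 * (1 - c - e)) +
      e * (-(63 / 50) - 5 + 10 * (1 - d - a)) ≤ -(37 / 1000) := by
  have hs' : a = 1 - b - c - d - e := by linarith
  have hB := quad_b hs' hb he ha hc' h2 h3 h1 h4 hcd hE
  have hEe := quad_e hs' ha0 hb he ha hc' h2 h3 h4 hcd hE
  have hac := quad_ac hs' ha0 hb he ha hc' h2 h3 h1 h4 hcd hE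
  clear hE h1 ha0
  subst hs'
  nlinarith only [mul_nonneg hb hb, mul_nonneg hb (sub_nonneg.2 hEe), mul_nonneg hb (sub_nonneg.2 hac), mul_nonneg he (sub_nonneg.2 hc'),
    mul_nonneg he (sub_nonneg.2 h2), mul_nonneg he (sub_nonneg.2 hB), mul_nonneg (sub_nonneg.2 ha) (sub_nonneg.2 h2),
    mul_nonneg (sub_nonneg.2 ha) (sub_nonneg.2 h3), mul_nonneg (sub_nonneg.2 ha) (sub_nonneg.2 h4), mul_nonneg (sub_nonneg.2 ha) (sub_nonneg.2 hB),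
    mul_nonneg (sub_nonneg.2 ha) (sub_nonneg.2 hac), mul_nonneg (sub_nonneg.2 hc') (sub_nonneg.2 hcd),
    mul_nonneg (sub_nonneg.2 hc') (sub_nonneg.2 hB), mul_nonneg (sub_nonneg.2 h2) (sub_nonneg.2 hcd)]

end

end Pool.Agent.MP_fb5c70_coU
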