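import Pool.Agent.Lib.MP_fb5c70_coU.Defs
import Pool.Agent.Lib.MP_fb5c70_coU.Quad

/-!
# The estimate for one word
-/

set_option autoImplicit false

open scoped BigOperators

namespace Pool.Agent.MP_fb5c70_coU

theorem sum_word {n : ℕ} (w : Fin n → Fin 5) (g : Fin 5 → ℝ) : ∑ v, g (w v) = ∑ i, (cnt w i : ℝ) * g i := by
  rw [← Finset.sum_fiberwise (s := Finset.univ) (g := w)]
  refine Finset.sum_congr rfl fun i _ => ?_
  rw [Finset.sum_congr rfl (g := fun _ => g i)]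
  · rw [Finset.sum_const, nsmul_eq_mul]
    rfl
  · intro v hv
    rw [(Finset.mem_filter.1 hv).2]

theorem term {D r δ L : ℝ} (hD : 0 ≤ D) (hδ : 0 < δ) (h : δ ^ 5 ≤ r * Real.exp L) : D ^ 5 ≤ r * Real.exp (L - 5 + 5 * D / δ) := by
  have h1 : D / δ ≤ Real.exp (D / δ - 1) := by
    have := Real.add_one_le_exp (D / δ - 1)
    linarith
  have h2 : D ^ 5 = δ ^ 5 * (D / δ) ^ 5 := by
    rw [div_pow]
    field_simp
  have h3 : (D / δ) ^ 5 ≤ Real.exp (5 * (D / δ - 1)) := by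
    have := pow_le_pow_left₀ (div_nonneg hD hδ.le) h1 5
    rw [← Real.exp_nat_mul] at this
    exact_mod_cast this
  calc D ^ 5 = δ ^ 5 * (D / δ) ^ 5 := h2
    _ ≤ (r * Real.exp L) * Real.exp (5 * (D / δ - 1)) :=
        mul_le_mul h h3 (pow_nonneg (div_nonneg hD hδ.le) 5) (le_trans (pow_nonneg hδ.le 5) h)
    _ = r * Real.exp (L - 5 + 5 * D / δ) := by
        rw [mul_assoc, ← Real.exp_add]
        congr 2
        ring

/-- The estimate with given weights. -/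
theorem est {n : ℕ} (w : Fin n → Fin 5) (r δ L : Fin 5 → ℝ) (q : ℝ) (hδ : ∀ i, 0 < δ i) (h : ∀ i, δ i ^ 5 ≤ r i * Real.exp (L i))
    (hq : ∑ i, (cnt w i : ℝ) * (L i - 5 + 5 * ((dn w i : ℝ) / n) / δ i) ≤ -(q * n)) :
    ∏ v, ((dn w (w v) : ℝ) / n) ^ 5 ≤ (∏ v, r (w v)) * Real.exp (-(q * n)) := by
  have h1 : ∏ v, ((dn w (w v) : ℝ) / n) ^ 5 ≤ ∏ v, (r (w v) * Real.exp (L (w v) - 5 + 5 * ((dn w (w v) : ℝ) / n) / δ (w v))) := by
    refine Finset.prod_le_prod (fun v _ => by positivity) fun v _ => term (by positivity) (hδ _) (h _)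
  refine h1.trans ?_
  rw [Finset.prod_mul_distrib, ← Real.exp_sum]
  have hr : 0 ≤ ∏ v, r (w v) := by
    refine Finset.prod_nonneg fun v _ => ?_
    by_contra hh
    have := mul_neg_of_neg_of_pos (not_le.1 hh) (Real.exp_pos (L (w v)))
    have h5 : 0 < δ (w v) ^ 5 := pow_pos (hδ _) 5
    linarith [h (w v)]
  refine mul_le_mul_of_nonneg_left (Real.exp_le_exp.2 ?_) hr
  rw [sum_word w fun i => L i - 5 + 5 * ((dn w i : ℝ) / n) / δ i]
  exact hq

/-- The relabelings of the pentagon. -/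
def sg (p : Fin 5 × Bool) : Equiv.Perm (Fin 5) := if p.2 then Equiv.addLeft p.1 else Equiv.subLeft p.1

/-- The data of the cell near the extremal distribution. -/
noncomputable def rB : Fin 5 → ℝ := ![7 / 20, 1 / 301, 1 / 2, 250 / 601, 50 / 451]
/-- The data of the cell near the extremal distribution. -/
noncomputable def tB : Fin 5 → ℝ := ![350, 1, 400, 250, 50]
/-- The data of the cell near the extremal distribution. -/
noncomputable def dB : Fin 5 → ℝ := ![1, 1 / 5, 4 / 5, 3 / 5, 1 / 2]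
/-- The data of the cell near the extremal distribution. -/
noncomputable def LB : Fin 5 → ℝ := ![21 / 20, -(23 / 10), -(21 / 50), -(167 / 100), -(63 / 50)]


theorem exp_up {x y : ℝ} (h1 : 0 ≤ x) (h2 : x ≤ 1) (h : 1 + x + x ^ 2 / 2 + x ^ 3 / 6 + x ^ 4 * 5 / 96 ≤ y) : Real.exp x ≤ y := by
  refine (Real.exp_bound' h1 h2 (n := 4) (by norm_num)).trans (le_trans (le_of_eq ?_) h)
  simp only [Finset.sum_range_succ, Finset.sum_range_zero, Nat.factorial]
  push_cast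
  ring

theorem exp_neg_up {x z : ℝ} (k : ℕ) (hz : 0 < z) (h1 : 0 ≤ x) (h2 : x ≤ 1) (y : ℝ)
    (h : 1 + x + x ^ 2 / 2 + x ^ 3 / 6 + x ^ 4 * 5 / 96 ≤ y) (hy : y ^ k * z ≤ 1) : z ≤ Real.exp (-(k * x)) := by
  have h3 := exp_up h1 h2 h
  have h4 : Real.exp (k * x) ≤ y ^ k := by
    rw [Real.exp_nat_mul]
    exact pow_le_pow_left₀ (Real.exp_pos _).le h3 k
  rw [Real.exp_neg, le_inv_comm₀ hz (Real.exp_pos _)]
  rw [← one_div, le_div_iff₀ hz]
  exact (mul_le_mul_of_nonneg_right h4 hz.le).trans hy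

theorem hB : ∀ i, dB i ^ 5 ≤ rB i * Real.exp (LB i) := by
  intro i
  fin_cases i
  · show (1 : ℝ) ^ 5 ≤ 7 / 20 * Real.exp (21 / 20)
    have h1 := Real.exp_one_gt_d9
    have h2 := Real.quadratic_le_exp_of_nonneg (show (0 : ℝ) ≤ 1 / 20 by norm_num)
    rw [show (21 / 20 : ℝ) = 1 + 1 / 20 by norm_num, Real.exp_add]
    have h3 : (2.7182818283 : ℝ) * (1 + 1 / 20 + (1 / 20) ^ 2 / 2) ≤ Real.exp 1 * Real.exp (1 / 20) :=
      mul_le_mul h1.le h2 (by norm_num) (Real.exp_pos _).le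
    norm_num at h3 ⊢
    linarith
  · show ((1 : ℝ) / 5) ^ 5 ≤ 1 / 301 * Real.exp (-(23 / 10))
    have h := exp_neg_up (x := 23 / 40) (z := 301 / 3125) 4 (by norm_num) (by norm_num) (by norm_num) (89 / 50) (by norm_num) (by norm_num)
    rw [show -(((4 : ℕ) : ℝ) * (23 / 40)) = -(23 / 10) by norm_num] at h
    norm_num at h ⊢
    linarith
  · show ((4 : ℝ) / 5) ^ 5 ≤ 1 / 2 * Real.exp (-(21 / 50))
    have h := exp_neg_up (x := 21 / 50) (z := 2048 / 3125) 1 (by norm_num) (by norm_num) (by norm_num) (3045 / 2000) (by norm_num) (by norm_num)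
    rw [show -(((1 : ℕ) : ℝ) * (21 / 50)) = -(21 / 50) by norm_num] at h
    norm_num at h ⊢
    linarith
  · show ((3 : ℝ) / 5) ^ 5 ≤ 250 / 601 * Real.exp (-(167 / 100))
    have h := exp_neg_up (x := 167 / 200) (z := (3 / 5) ^ 5 * 601 / 250) 2 (by norm_num) (by norm_num) (by norm_num) (231 / 100) (by norm_num) (by norm_num)
    rw [show -(((2 : ℕ) : ℝ) * (167 / 200)) = -(167 / 100) by norm_num] at h
    norm_num at h ⊢
    linarith
  · show ((1 : ℝ) / 2) ^ 5 ≤ 50 / 451 * Real.exp (-(63 / 50))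
    have h := exp_neg_up (x := 63 / 100) (z := (1 / 2) ^ 5 * 451 / 50) 2 (by norm_num) (by norm_num) (by norm_num) (188 / 100) (by norm_num) (by norm_num)
    rw [show -(((2 : ℕ) : ℝ) * (63 / 100)) = -(63 / 50) by norm_num] at h
    norm_num at h ⊢
    linarith

theorem dB_pos : ∀ i, 0 < dB i := by
  intro i
  fin_cases i <;> simp [dB]

theorem sg_nr (p : Fin 5 × Bool) (i j : Fin 5) : nr (sg p i) (sg p j) ↔ nr i j := by
  obtain ⟨a, s⟩ := p
  cases s
  · show nr (a - i) (a - j) ↔ nr i j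
    revert a i j
    decide
  · show nr (a + i) (a + j) ↔ nr i j
    revert a i j
    decide

theorem sg_add (p : Fin 5 × Bool) (i : Fin 5) : (sg p (i + 2) = sg p i + 2 ∧ sg p (i + 3) = sg p i + 3) ∨
    (sg p (i + 2) = sg p i + 3 ∧ sg p (i + 3) = sg p i + 2) := by
  obtain ⟨a, s⟩ := p
  cases s
  · show (a - (i + 2) = a - i + 2 ∧ a - (i + 3) = a - i + 3) ∨ (a - (i + 2) = a - i + 3 ∧ a - (i + 3) = a - i + 2)
    revert a i
    decide
  · show (a + (i + 2) = a + i + 2 ∧ a + (i + 3) = a + i + 3) ∨ (a + (i + 2) = a + i + 3 ∧ a + (i + 3) = a + i + 2)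
    revert a i
    decide

end Pool.Agent.MP_fb5c70_coU
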