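import Mathlib

/-!
# The quadratic inequality for permutations and matchings

`a, b, c, d, e` are the relative sizes of the classes `0, 1, 2, 3, 4` of the pentagon.
-/

set_option autoImplicit false

namespace Pool.Agent.MP_fb5c70_coU

section

variable {a b c d e : ℝ}

theorem quadB_b (hs : a = 1 - b - c - d - e) (gb : 0 ≤ b) (gd : 0 ≤ d) (ge : 0 ≤ e)
    (gA : 0 ≤ 2001 / 5000 - a) (gC : 0 ≤ 2001 / 5000 - c)
    (gde : 0 ≤ d - e) (gcb : 0 ≤ c - b) (g1 : 0 ≤ a + c - b - e) (g2 : 0 ≤ a + d - b - e) (gcd : 0 ≤ c - d)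
    (hE : a * b + b * c + c * d + d * e + e * a ≤ 9 / 80) : b ≤ 37 / 400 := by
  subst hs
  nlinarith only [mul_nonneg gb gb, mul_nonneg gb gcd, mul_nonneg gd ge, mul_nonneg ge gC, mul_nonneg ge gde, mul_nonneg ge g2, mul_nonneg gA gde,
    mul_nonneg gA gcb, mul_nonneg gA g2, mul_nonneg gC gcb, mul_nonneg gC gcd, mul_nonneg gC g1, mul_nonneg gde gcd, hE]

theorem quadB_b' (hs : a = 1 - b - c - d - e) (gb : 0 ≤ b) (gd : 0 ≤ d) (ge : 0 ≤ e)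
    (gA : 0 ≤ 2001 / 5000 - a) (gC : 0 ≤ 2001 / 5000 - c)
    (gcb : 0 ≤ c - b) (g2 : 0 ≤ a + d - b - e) (gcd : 0 ≤ c - d)
    (hE : a * b + b * c + c * d + d * e + e * a ≤ 9 / 80) (hd : 0 ≤ d - 1 / 5) : b ≤ 41 / 500 := by
  subst hs
  nlinarith only [mul_nonneg gb gcb, mul_nonneg gb gcd, mul_nonneg gd ge, mul_nonneg ge ge, mul_nonneg ge gC, mul_nonneg ge g2, mul_nonneg ge hd,
    mul_nonneg gA gcb, mul_nonneg gA g2, mul_nonneg gC gcd, mul_nonneg gcb hd, mul_nonneg gcd hd, mul_nonneg hd hd, hE]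

theorem quadB_c (hs : a = 1 - b - c - d - e) (gb : 0 ≤ b) (ge : 0 ≤ e)
    (gA : 0 ≤ 2001 / 5000 - a) (gC : 0 ≤ 2001 / 5000 - c)
    (gde : 0 ≤ d - e) (gcb : 0 ≤ c - b) (g1 : 0 ≤ a + c - b - e) (g2 : 0 ≤ a + d - b - e) (gcd : 0 ≤ c - d)
    (hE : a * b + b * c + c * d + d * e + e * a ≤ 9 / 80) (hd : 0 ≤ d - 1 / 5) : 267 / 1000 ≤ c := by
  subst hs
  nlinarith only [mul_nonneg gb gcd, mul_nonneg gb hd, mul_nonneg ge hd, gA, mul_nonneg gA gde, mul_nonneg gA gcb, mul_nonneg gA g1,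
    mul_nonneg gC gcd, mul_nonneg gde gcd, gcd, mul_nonneg gcd g2, hE]

/-- The exponent, with `s = (1, 2, 6/5, 8/5, 7/4)`, `δ = (28/25, 12/25, 19/20, 73/100, 13/20)`, `q₀ = 113/100`. -/
theorem quadB (hs : a + b + c + d + e = 1) (gb : 0 ≤ b) (gd : 0 ≤ d) (ge : 0 ≤ e)
    (gA : 0 ≤ 2001 / 5000 - a) (gC : 0 ≤ 2001 / 5000 - c)
    (gde : 0 ≤ d - e) (gcb : 0 ≤ c - b) (g1 : 0 ≤ a + c - b - e) (g2 : 0 ≤ a + d - b - e) (gcd : 0 ≤ c - d)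
    (hE : a * b + b * c + c * d + d * e + e * a ≤ 9 / 80) :
    a * (188 / 125 - 4 + 4 * (a + 6 / 5 * c + 8 / 5 * d) / (28 / 25)) + b * (-(112 / 125) - 4 + 4 * (2 * b + 8 / 5 * d + 7 / 4 * e) / (12 / 25)) +
      c * (-(52 / 125) - 4 + 4 * (6 / 5 * c + 7 / 4 * e + a) / (19 / 20)) + d * (-(27 / 10) - 4 + 4 * (8 / 5 * d + a + 2 * b) / (73 / 100)) +
      e * (-(643 / 250) - 4 + 4 * (7 / 4 * e + 2 * b + 6 / 5 * c) / (13 / 20)) +
      1 / 2 * (1223 / 10000 - 1 + (a * (a + 6 / 5 * c + 8 / 5 * d) + 2 * b * (2 * b + 8 / 5 * d + 7 / 4 * e) + 6 / 5 * c * (6 / 5 * c + 7 / 4 * e + a) +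
        8 / 5 * d * (8 / 5 * d + a + 2 * b) + 7 / 4 * e * (7 / 4 * e + 2 * b + 6 / 5 * c)) / (113 / 100)) ≤ -(47 / 1000) := by
  have hs' : a = 1 - b - c - d - e := by linarith
  rcases le_total d (1 / 5) with h | h
  · have kB : 0 ≤ 37 / 400 - b := sub_nonneg.2 (quadB_b hs' gb gd ge gA gC gde gcb g1 g2 gcd hE)
    have hd : 0 ≤ 1 / 5 - d := sub_nonneg.2 h
    clear hE hs h
    subst hs'
    nlinarith only [mul_nonneg gb gb, mul_nonneg gb gde, mul_nonneg gb gcd, mul_nonneg ge gC, mul_nonneg ge gde, mul_nonneg ge kB, gA,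
      mul_nonneg gA gde, mul_nonneg gA gcb, mul_nonneg gA g2, mul_nonneg gA kB, mul_nonneg gC hd, mul_nonneg gC kB, mul_nonneg gde hd]
  · have hd : 0 ≤ d - 1 / 5 := sub_nonneg.2 h
    have kB : 0 ≤ 41 / 500 - b := sub_nonneg.2 (quadB_b' hs' gb gd ge gA gC gcb g2 gcd hE hd)
    have kC : 0 ≤ c - 267 / 1000 := sub_nonneg.2 (quadB_c hs' gb ge gA gC gde gcb g1 g2 gcd hE hd)
    clear hE hs h
    subst hs'
    nlinarith only [mul_nonneg gb gcd, mul_nonneg gb kC, mul_nonneg ge gC, mul_nonneg ge gde, mul_nonneg ge g2, mul_nonneg ge kB,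
      mul_nonneg gA gcb, mul_nonneg gA g2, mul_nonneg gA hd, mul_nonneg gA kB, mul_nonneg gC kC, mul_nonneg gde kC, mul_nonneg gcd hd, mul_nonneg hd kC]

end

end Pool.Agent.MP_fb5c70_coU
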