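import Pool.Agent.Lib.MP_fb5c70_coU.Match
import Pool.Agent.Lib.MP_fb5c70_coU.Cell
import Pool.Agent.Lib.MP_fb5c70_coU.QuadB

/-!
# The estimate for one word: permutations and a matching
-/

set_option autoImplicit false

open scoped BigOperators

namespace Pool.Agent.MP_fb5c70_coU

theorem termB {D r δ s L : ℝ} (hD : 0 ≤ D) (hδ : 0 < δ) (hs : 0 < s) (h : (δ / s) ^ 4 / s ≤ r * Real.exp L) :
    (D / s) ^ 4 * (1 / s) ≤ r * Real.exp (L - 4 + 4 * D / δ) := by
  have h1 : D / δ ≤ Real.exp (D / δ - 1) := by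
    have := Real.add_one_le_exp (D / δ - 1)
    linarith
  have h2 : (D / s) ^ 4 * (1 / s) = (δ / s) ^ 4 / s * (D / δ) ^ 4 := by
    field_simp
  have h3 : (D / δ) ^ 4 ≤ Real.exp (4 * (D / δ - 1)) := by
    have := pow_le_pow_left₀ (div_nonneg hD hδ.le) h1 4
    rw [← Real.exp_nat_mul] at this
    exact_mod_cast this
  calc (D / s) ^ 4 * (1 / s) = (δ / s) ^ 4 / s * (D / δ) ^ 4 := h2
    _ ≤ (r * Real.exp L) * Real.exp (4 * (D / δ - 1)) :=
        mul_le_mul h h3 (pow_nonneg (div_nonneg hD hδ.le) 4) (le_trans (by positivity) h)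
    _ = r * Real.exp (L - 4 + 4 * D / δ) := by
        rw [mul_assoc, ← Real.exp_add]
        congr 2
        ring

/-- The estimate with given weights. -/
theorem estB {n m t : ℕ} (hm : 2 * m + t = n) (ht : t ≤ 1) (w : Fin n → Fin 5) (r δ s L : Fin 5 → ℝ) (q₀ κ q : ℝ) (hδ : ∀ i, 0 < δ i) (hs : ∀ i, 0 < s i)
    (h : ∀ i, (δ i / s i) ^ 4 / s i ≤ r i * Real.exp (L i)) (hq0 : 0 < q₀) (hκ : q₀ ≤ Real.exp κ) (hκ0 : -(2 / 5) ≤ κ)
    (hq : ∑ i, (cnt w i : ℝ) * (L i - 4 + 4 * tau s w i / δ i) + n * (1 / 2 * (κ - 1 + qq s w / q₀)) ≤ -(q * n)) :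
    (∏ v, (tau s w (w v) / s (w v))) ^ 4 * (qq s w ^ m * ∏ v, (1 / s (w v))) ≤ (∏ v, r (w v)) * (Real.exp (7 / 10) * Real.exp (-(q * n))) := by
  have h1 : (∏ v, (tau s w (w v) / s (w v))) ^ 4 * ∏ v, (1 / s (w v)) ≤
      ∏ v, (r (w v) * Real.exp (L (w v) - 4 + 4 * tau s w (w v) / δ (w v))) := by
    rw [← Finset.prod_pow, ← Finset.prod_mul_distrib]
    refine Finset.prod_le_prod (fun v _ => ?_) fun v _ => termB (tau_nonneg hs w _) (hδ _) (hs _) (h _)
    have := hs (w v)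
    positivity
  have hr : 0 ≤ ∏ v, r (w v) := by
    refine Finset.prod_nonneg fun v _ => ?_
    by_contra hh
    have h2 := mul_neg_of_neg_of_pos (not_le.1 hh) (Real.exp_pos (L (w v)))
    have h3 := h (w v)
    have h4 : 0 < (δ (w v) / s (w v)) ^ 4 / s (w v) := by
      have := hs (w v)
      have := hδ (w v)
      positivity
    linarith
  have hqq : 0 ≤ qq s w := by
    unfold qq
    exact Finset.sum_nonneg fun i _ => mul_nonneg (mul_nonneg (hs i).le (by positivity)) (tau_nonneg hs w i)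
  have h5 : qq s w ^ m ≤ Real.exp (n * (1 / 2 * (κ - 1 + qq s w / q₀)) + 7 / 10) := by
    have a1 : qq s w ≤ Real.exp (κ - 1 + qq s w / q₀) := by
      have a2 : qq s w / q₀ ≤ Real.exp (qq s w / q₀ - 1) := by
        have := Real.add_one_le_exp (qq s w / q₀ - 1)
        linarith
      calc qq s w = q₀ * (qq s w / q₀) := by field_simp
        _ ≤ Real.exp κ * Real.exp (qq s w / q₀ - 1) := mul_le_mul hκ a2 (by positivity) (Real.exp_pos _).le
        _ = Real.exp (κ - 1 + qq s w / q₀) := by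
            rw [← Real.exp_add]
            congr 1
            ring
    have a3 := pow_le_pow_left₀ hqq a1 m
    refine a3.trans ?_
    rw [← Real.exp_nat_mul]
    refine Real.exp_le_exp.2 ?_
    have a4 : (n : ℝ) = 2 * m + t := by
      rw [← hm]
      push_cast
      ring
    have a5 : (t : ℝ) ≤ 1 := by exact_mod_cast ht
    have a6 : (0 : ℝ) ≤ t := Nat.cast_nonneg t
    have a7 : 0 ≤ qq s w / q₀ := by positivity
    rw [a4]
    nlinarith
  have h6 : ∏ v, (r (w v) * Real.exp (L (w v) - 4 + 4 * tau s w (w v) / δ (w v))) =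
      (∏ v, r (w v)) * Real.exp (∑ i, (cnt w i : ℝ) * (L i - 4 + 4 * tau s w i / δ i)) := by
    rw [Finset.prod_mul_distrib, ← Real.exp_sum, sum_word w fun i => L i - 4 + 4 * tau s w i / δ i]
  rw [h6] at h1
  calc (∏ v, (tau s w (w v) / s (w v))) ^ 4 * (qq s w ^ m * ∏ v, (1 / s (w v)))
      = ((∏ v, (tau s w (w v) / s (w v))) ^ 4 * ∏ v, (1 / s (w v))) * qq s w ^ m := by ring
    _ ≤ ((∏ v, r (w v)) * Real.exp (∑ i, (cnt w i : ℝ) * (L i - 4 + 4 * tau s w i / δ i))) *
        Real.exp (n * (1 / 2 * (κ - 1 + qq s w / q₀)) + 7 / 10) :=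
        mul_le_mul h1 h5 (pow_nonneg hqq m) (mul_nonneg hr (Real.exp_pos _).le)
    _ = (∏ v, r (w v)) * Real.exp (∑ i, (cnt w i : ℝ) * (L i - 4 + 4 * tau s w i / δ i) + (n * (1 / 2 * (κ - 1 + qq s w / q₀)) + 7 / 10)) := by
        rw [mul_assoc, ← Real.exp_add]
    _ ≤ (∏ v, r (w v)) * (Real.exp (7 / 10) * Real.exp (-(q * n))) := by
        refine mul_le_mul_of_nonneg_left ?_ hr
        rw [← Real.exp_add]
        refine Real.exp_le_exp.2 ?_
        linarith

/-- The data of the cell near the extremal distribution. -/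
noncomputable def rC : Fin 5 → ℝ := ![7 / 20, 1 / 246, 66 / 133, 190 / 471, 55 / 386]
/-- The data of the cell near the extremal distribution. -/
noncomputable def tC : Fin 5 → ℝ := ![280, 1, 330, 190, 55]
/-- The data of the cell near the extremal distribution. -/
noncomputable def sC : Fin 5 → ℝ := ![1, 2, 6 / 5, 8 / 5, 7 / 4]
/-- The data of the cell near the extremal distribution. -/
noncomputable def dC : Fin 5 → ℝ := ![28 / 25, 12 / 25, 19 / 20, 73 / 100, 13 / 20]
/-- The data of the cell near the extremal distribution. -/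
noncomputable def LC : Fin 5 → ℝ := ![188 / 125, -(112 / 125), -(52 / 125), -(27 / 10), -(643 / 250)]

theorem hC : ∀ i, (dC i / sC i) ^ 4 / sC i ≤ rC i * Real.exp (LC i) := by
  intro i
  fin_cases i
  · show ((28 / 25 : ℝ) / 1) ^ 4 / 1 ≤ 7 / 20 * Real.exp (188 / 125)
    have h1 := Real.exp_one_gt_d9
    have h2 := Real.sum_le_exp_of_nonneg (show (0 : ℝ) ≤ 63 / 125 by norm_num) 5
    simp only [Finset.sum_range_succ, Finset.sum_range_zero, Nat.factorial] at h2
    rw [show (188 / 125 : ℝ) = 1 + 63 / 125 by norm_num, Real.exp_add]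
    have h3 : (2.7182818283 : ℝ) * (8275 / 5000) ≤ Real.exp 1 * Real.exp (63 / 125) := by
      refine mul_le_mul h1.le ?_ (by norm_num) (Real.exp_pos _).le
      push_cast at h2
      norm_num at h2 ⊢
      linarith
    norm_num at h3 ⊢
    linarith
  · show ((12 / 25 : ℝ) / 2) ^ 4 / 2 ≤ 1 / 246 * Real.exp (-(112 / 125))
    have h := exp_neg_up (x := 112 / 375) (z := ((12 / 25 : ℝ) / 2) ^ 4 / 2 * 246) 3 (by norm_num) (by norm_num) (by norm_num) (134813 / 100000) (by norm_num) (by norm_num)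
    rw [show -(((3 : ℕ) : ℝ) * (112 / 375)) = -(112 / 125) by norm_num] at h
    linarith
  · show ((19 / 20 : ℝ) / (6 / 5)) ^ 4 / (6 / 5) ≤ 66 / 133 * Real.exp (-(52 / 125))
    have h := exp_neg_up (x := 26 / 125) (z := ((19 / 20 : ℝ) / (6 / 5)) ^ 4 / (6 / 5) * (133 / 66)) 2 (by norm_num) (by norm_num) (by norm_num) (123123 / 100000)
      (by norm_num) (by norm_num)
    rw [show -(((2 : ℕ) : ℝ) * (26 / 125)) = -(52 / 125) by norm_num] at h
    linarith
  · show ((73 / 100 : ℝ) / (8 / 5)) ^ 4 / (8 / 5) ≤ 190 / 471 * Real.exp (-(27 / 10))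
    have h := exp_neg_up (x := 3 / 10) (z := ((73 / 100 : ℝ) / (8 / 5)) ^ 4 / (8 / 5) * (471 / 190)) 9 (by norm_num) (by norm_num) (by norm_num) (27 / 20)
      (by norm_num) (by norm_num)
    rw [show -(((9 : ℕ) : ℝ) * (3 / 10)) = -(27 / 10) by norm_num] at h
    linarith
  · show ((13 / 20 : ℝ) / (7 / 4)) ^ 4 / (7 / 4) ≤ 55 / 386 * Real.exp (-(643 / 250))
    have h := exp_neg_up (x := 643 / 2000) (z := ((13 / 20 : ℝ) / (7 / 4)) ^ 4 / (7 / 4) * (386 / 55)) 8 (by norm_num) (by norm_num) (by norm_num) (13793 / 10000)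
      (by norm_num) (by norm_num)
    rw [show -(((8 : ℕ) : ℝ) * (643 / 2000)) = -(643 / 250) by norm_num] at h
    linarith

theorem hA4 : ((31 / 40 : ℝ) / 1) ^ 4 / 1 ≤ 1 / 3 * Real.exp (159 / 2000) := by
  have h := Real.quadratic_le_exp_of_nonneg (show (0 : ℝ) ≤ 159 / 2000 by norm_num)
  norm_num at h ⊢
  linarith

theorem hAk : (31 / 40 : ℝ) ≤ Real.exp (-(127 / 500)) := by
  have h := exp_neg_up (x := 127 / 500) (z := 31 / 40) 1 (by norm_num) (by norm_num) (by norm_num) (129 / 100) (by norm_num) (by norm_num)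
  rw [show -(((1 : ℕ) : ℝ) * (127 / 500)) = -(127 / 500) by norm_num] at h
  exact h

theorem hCk : (113 / 100 : ℝ) ≤ Real.exp (1223 / 10000) := by
  have h2 := Real.sum_le_exp_of_nonneg (show (0 : ℝ) ≤ 1223 / 10000 by norm_num) 5
  simp only [Finset.sum_range_succ, Finset.sum_range_zero, Nat.factorial] at h2
  push_cast at h2
  norm_num at h2 ⊢
  linarith

theorem dC_pos : ∀ i, 0 < dC i := by
  intro i
  fin_cases i <;> simp [dC]

theorem sC_pos : ∀ i, 0 < sC i := by
  intro i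
  fin_cases i <;> simp [sC]

theorem sC_le : ∀ i, sC i ≤ 2 := by
  intro i
  fin_cases i <;> simp [sC] <;> norm_num

end Pool.Agent.MP_fb5c70_coU
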