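import Mathlib

/-!
# Words over the pentagon

`nr i j`: the classes `i` and `j` of the blow-up of the pentagon are not joined. A word `w : Fin n → Fin 5` gives the classes of the images of the vertices.
-/

set_option autoImplicit false

open scoped BigOperators

namespace Pool.Agent.MP_fb5c70_coU

/-- `i` and `j` are not adjacent in the pentagon. -/
def nr (i j : Fin 5) : Prop := j ≠ i + 1 ∧ i ≠ j + 1

instance (i j : Fin 5) : Decidable (nr i j) := inferInstanceAs (Decidable (_ ∧ _))

/-- The number of the letters `i`. -/
def cnt {n : ℕ} (w : Fin n → Fin 5) (i : Fin 5) : ℕ := (Finset.univ.filter fun v => w v = i).card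

/-- The number of the letters which are not adjacent to `i`. -/
def dn {n : ℕ} (w : Fin n → Fin 5) (i : Fin 5) : ℕ := (Finset.univ.filter fun v => nr i (w v)).card

/-- Consecutive letters are not adjacent. -/
def POk {n : ℕ} (w : Fin n → Fin 5) : Prop := ∀ v v' : Fin n, (v : ℕ) + 1 = v' → nr (w v) (w v')

instance {n : ℕ} (w : Fin n → Fin 5) : Decidable (POk w) := inferInstanceAs (Decidable (∀ _ _ : Fin n, _ → _))

theorem nr_filter (i : Fin 5) : (Finset.univ.filter fun j => nr i j) = {i, i + 2, i + 3} := by
  revert i
  decide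

theorem sum_cnt {n : ℕ} (w : Fin n → Fin 5) : cnt w 0 + cnt w 1 + cnt w 2 + cnt w 3 + cnt w 4 = n := by
  have h : ∑ i : Fin 5, cnt w i = n := by
    have := Finset.card_eq_sum_card_fiberwise (f := w) (s := Finset.univ) (t := Finset.univ) (fun v _ => Finset.mem_univ _)
    rw [Finset.card_univ, Fintype.card_fin] at this
    exact this.symm
  rw [Fin.sum_univ_five] at h
  exact h

theorem dn_eq {n : ℕ} (w : Fin n → Fin 5) (i : Fin 5) : dn w i = cnt w i + cnt w (i + 2) + cnt w (i + 3) := by
  have h : dn w i = ∑ j ∈ ({i, i + 2, i + 3} : Finset (Fin 5)), cnt w j := by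
    rw [← nr_filter i]
    unfold dn cnt
    rw [Finset.card_eq_sum_card_fiberwise (f := w) (t := Finset.univ.filter fun j => nr i j)]
    · refine Finset.sum_congr rfl fun j hj => ?_
      congr 1
      ext v
      simp only [Finset.mem_filter, Finset.mem_univ, true_and] at hj ⊢
      constructor
      · exact fun h => h.2
      · intro h
        rw [h]
        exact ⟨hj, rfl⟩
    · intro v hv
      simp only [Finset.coe_filter, Finset.mem_univ, true_and, Set.mem_ofPred_eq] at hv ⊢
      exact hv
  rw [h]
  have h1 : i ≠ i + 2 ∧ i ≠ i + 3 ∧ i + 2 ≠ i + 3 := by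
    clear h
    revert i
    decide
  rw [Finset.sum_insert, Finset.sum_insert, Finset.sum_singleton, add_assoc]
  · simp only [Finset.mem_singleton]
    exact h1.2.2
  · simp only [Finset.mem_insert, Finset.mem_singleton, not_or]
    exact ⟨h1.1, h1.2.1⟩

end Pool.Agent.MP_fb5c70_coU
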