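import Pool.Agent.Lib.MP_fb5c70_coU.Total

/-!
# The graphs

`GF F`: the path `0, 1, …, n - 1` and the pairs `v, F j v`. `HP N`: the blow-up of the pentagon.
-/

set_option autoImplicit false

open scoped BigOperators

namespace Pool.Agent.MP_fb5c70_coU

theorem nr_symm {i j : Fin 5} (h : nr i j) : nr j i := ⟨h.2, h.1⟩

theorem nr_refl (i : Fin 5) : nr i i := by
  revert i
  decide

theorem nr_tri (i j k : Fin 5) (h1 : ¬ nr i j) (h2 : ¬ nr i k) (h3 : ¬ nr j k) : False := by
  revert i j k
  decide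

/-- The class of a vertex. -/
def cl {N : ℕ} (a : Fin N) : Fin 5 := ⟨a.val % 5, Nat.mod_lt _ (by norm_num)⟩

/-- The blow-up of the pentagon. -/
def HP (N : ℕ) : SimpleGraph (Fin N) where
  Adj a b := ¬ nr (cl a) (cl b)
  symm := ⟨fun _ _ h h' => h (nr_symm h')⟩
  loopless := ⟨fun _ h => h (nr_refl _)⟩

theorem HP_free (N : ℕ) : (HP N).CliqueFree 3 := by
  intro s hs
  obtain ⟨a, b, c, h1, h2, h3, _⟩ := SimpleGraph.is3Clique_iff.1 hs
  exact nr_tri _ _ _ h1 h2 h3

theorem cl_card (N : ℕ) (i : Fin 5) : 5 * (Finset.univ.filter fun a : Fin N => cl a = i).card ≤ N + 4 := by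
  have h : (Finset.univ.filter fun a : Fin N => cl a = i).card ≤ (Finset.range ((N + 4) / 5)).card := by
    refine Finset.card_le_card_of_injOn (fun a : Fin N => a.val / 5) ?_ ?_
    · intro a _
      simp only [Finset.coe_range, Set.mem_Iio]
      have := a.isLt
      omega
    · intro a ha b hb hab
      simp only [Finset.coe_filter, Finset.mem_univ, true_and, Set.mem_ofPred_eq] at ha hb
      have h1 : a.val % 5 = i.val := congrArg Fin.val ha
      have h2 : b.val % 5 = i.val := congrArg Fin.val hb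
      have h3 : a.val / 5 = b.val / 5 := hab
      apply Fin.ext
      omega
  rw [Finset.card_range] at h
  omega

/-- The path and the pairs `v, F j v`. -/
def GF {n : ℕ} (F : Fin 5 → Fin n → Fin n) : SimpleGraph (Fin n) := SimpleGraph.fromRel fun u v => (u : ℕ) + 1 = v ∨ ∃ j, F j u = v

theorem GF_conn {n : ℕ} (hn : 0 < n) (F : Fin 5 → Fin n → Fin n) : (GF F).Connected := by
  have key : ∀ m (hm : m < n), (GF F).Reachable ⟨0, hn⟩ ⟨m, hm⟩ := by
    intro m
    induction m with
    | zero => exact fun _ => SimpleGraph.Reachable.refl _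
    | succ m ih =>
      intro hm
      refine (ih (by omega)).trans (SimpleGraph.Adj.reachable ?_)
      rw [GF, SimpleGraph.fromRel_adj]
      refine ⟨?_, Or.inl (Or.inl rfl)⟩
      intro h
      have := congrArg Fin.val h
      simp at this
  have : Nonempty (Fin n) := ⟨⟨0, hn⟩⟩
  exact ⟨fun a b => (key a.1 a.2).symm.trans (key b.1 b.2)⟩

theorem GF_edges {n : ℕ} (hn : 0 < n) (F : Fin 5 → Fin n → Fin n) : (GF F).edgeSet.ncard + 1 ≤ 6 * n := by
  obtain ⟨m, rfl⟩ : ∃ m, n = m + 1 := ⟨n - 1, by omega⟩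
  have h : (GF F).edgeSet ⊆ ↑((Finset.univ : Finset (Fin m)).image (fun i => s(i.castSucc, i.succ)) ∪
      (Finset.univ : Finset (Fin 5 × Fin (m + 1))).image fun p => s(p.2, F p.1 p.2)) := by
    intro e
    induction e with
    | _ u v =>
      intro he
      rw [SimpleGraph.mem_edgeSet, GF, SimpleGraph.fromRel_adj] at he
      rw [Finset.mem_coe, Finset.mem_union]
      have aux : ∀ u v : Fin (m + 1), (u : ℕ) + 1 = v → s(u, v) ∈ (Finset.univ : Finset (Fin m)).image (fun i => s(i.castSucc, i.succ)) := by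
        intro u v h
        have := v.isLt
        rw [Finset.mem_image]
        refine ⟨⟨u, by omega⟩, Finset.mem_univ _, ?_⟩
        have e1 : (⟨(u : ℕ), by omega⟩ : Fin m).castSucc = u := Fin.ext rfl
        have e2 : (⟨(u : ℕ), by omega⟩ : Fin m).succ = v := Fin.ext (by simp only [Fin.val_succ]; exact h)
        rw [e1, e2]
      rcases he.2 with (h | ⟨j, h⟩) | (h | ⟨j, h⟩)
      · exact Or.inl (aux u v h)
      · exact Or.inr (Finset.mem_image.2 ⟨(j, u), Finset.mem_univ _, by rw [h]⟩)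
      · refine Or.inl ?_
        rw [Sym2.eq_swap]
        exact aux v u h
      · refine Or.inr (Finset.mem_image.2 ⟨(j, v), Finset.mem_univ _, ?_⟩)
        rw [h, Sym2.eq_swap]
  have h1 := Set.ncard_le_ncard h (Finset.finite_toSet _)
  rw [Set.ncard_coe_finset] at h1
  have h2 := Finset.card_union_le ((Finset.univ : Finset (Fin m)).image (fun i => s(i.castSucc, i.succ)))
    ((Finset.univ : Finset (Fin 5 × Fin (m + 1))).image fun p => s(p.2, F p.1 p.2))
  have h3 : ((Finset.univ : Finset (Fin m)).image (fun i => s(i.castSucc, i.succ))).card ≤ m :=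
    Finset.card_image_le.trans (by simp)
  have h4 : ((Finset.univ : Finset (Fin 5 × Fin (m + 1))).image fun p => s(p.2, F p.1 p.2)).card ≤ 5 * (m + 1) :=
    Finset.card_image_le.trans (by simp)
  omega

/-- The number of the `F` which are compatible with the word `w`. -/
theorem card_F {n : ℕ} (w : Fin n → Fin 5) :
    (Finset.univ.filter fun F : Fin 5 → Fin n → Fin n => ∀ j v, nr (w v) (w (F j v))).card = ∏ v, dn w (w v) ^ 5 := by
  have h : (Finset.univ.filter fun F : Fin 5 → Fin n → Fin n => ∀ j v, nr (w v) (w (F j v))) =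
      Fintype.piFinset fun _ : Fin 5 => Fintype.piFinset fun v : Fin n => Finset.univ.filter fun u => nr (w v) (w u) := by
    ext F
    simp only [Finset.mem_filter, Finset.mem_univ, true_and, Fintype.mem_piFinset]
  rw [h, Fintype.card_piFinset, Finset.prod_const, Finset.card_univ, Fintype.card_fin, Fintype.card_piFinset, ← Finset.prod_pow]
  rfl

/-- Some `F` is compatible with no word. -/
theorem exists_F {n : ℕ} (hn : 150 ≤ n) : ∃ F : Fin 5 → Fin n → Fin n, ∀ w ∈ Wd n, ¬ ∀ j v, nr (w v) (w (F j v)) := by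
  by_contra hcon
  push Not at hcon
  have h1 : (Finset.univ : Finset (Fin 5 → Fin n → Fin n)) ⊆
      (Wd n).biUnion fun w => Finset.univ.filter fun F : Fin 5 → Fin n → Fin n => ∀ j v, nr (w v) (w (F j v)) := by
    intro F _
    obtain ⟨w, hw, h⟩ := hcon F
    exact Finset.mem_biUnion.2 ⟨w, hw, Finset.mem_filter.2 ⟨Finset.mem_univ _, h⟩⟩
  have h2 := (Finset.card_le_card h1).trans Finset.card_biUnion_le
  rw [Finset.sum_congr rfl fun w _ => card_F w, Finset.card_univ, Fintype.card_fun, Fintype.card_fun, Fintype.card_fin, Fintype.card_fin] at h2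
  have hn0 : (0 : ℝ) < n := by
    have : 0 < n := by omega
    exact_mod_cast this
  have h3 : (((n : ℝ) ^ n) ^ 5) ≤ ∑ w ∈ Wd n, ∏ v, (dn w (w v) : ℝ) ^ 5 := by exact_mod_cast h2
  have h4 : ∑ w ∈ Wd n, ∏ v, (dn w (w v) : ℝ) ^ 5 = ((n : ℝ) ^ n) ^ 5 * ∑ w ∈ Wd n, ∏ v, ((dn w (w v) : ℝ) / n) ^ 5 := by
    rw [Finset.mul_sum]
    refine Finset.sum_congr rfl fun w _ => ?_
    have : ∏ v, ((dn w (w v) : ℝ) / n) ^ 5 = (∏ v, (dn w (w v) : ℝ) ^ 5) / ((n : ℝ) ^ n) ^ 5 := by
      rw [Finset.prod_congr rfl fun v _ => div_pow _ _ _, Finset.prod_div_distrib, Finset.prod_const, Finset.card_univ, Fintype.card_fin]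
      congr 1
      rw [← pow_mul, ← pow_mul, mul_comm]
    rw [this]
    field_simp
  have h5 := total hn
  have h6 : (0 : ℝ) < ((n : ℝ) ^ n) ^ 5 := by positivity
  rw [h4] at h3
  nlinarith

end Pool.Agent.MP_fb5c70_coU
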