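import Pool.Agent.Lib.MP_fb5c70_coU.TotalB
import Pool.Agent.Lib.MP_fb5c70_coU.Graph

/-!
# The graphs of maximum degree at most 11

`GB F μ`: the path `0, 1, …, n - 1`, the pairs `v, F j v` of four permutations and the pairs `v, μ v` of an involution.
-/

set_option autoImplicit false

open scoped BigOperators

namespace Pool.Agent.MP_fb5c70_coU

/-- The exchange of the first two parts. -/
def sw {m r : ℕ} : Fin m ⊕ (Fin m ⊕ Fin r) → Fin m ⊕ (Fin m ⊕ Fin r)
  | .inl i => .inr (.inl i)
  | .inr (.inl i) => .inl i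
  | .inr (.inr i) => .inr (.inr i)

theorem sw_sw {m r : ℕ} (x : Fin m ⊕ (Fin m ⊕ Fin r)) : sw (sw x) = x := by
  rcases x with i | i | i <;> rfl

/-- The involution of a matching. -/
def mu {n m r : ℕ} (e : Fin n ≃ Fin m ⊕ (Fin m ⊕ Fin r)) (π : Equiv.Perm (Fin n)) (v : Fin n) : Fin n := π (e.symm (sw (e (π.symm v))))

theorem mu_mu {n m r : ℕ} (e : Fin n ≃ Fin m ⊕ (Fin m ⊕ Fin r)) (π : Equiv.Perm (Fin n)) (v : Fin n) : mu e π (mu e π v) = v := by
  unfold mu
  rw [π.symm_apply_apply, e.apply_symm_apply, sw_sw, e.symm_apply_apply, π.apply_symm_apply]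

/-- The path, four permutations and an involution. -/
def GB {n : ℕ} (F : Fin 4 → Equiv.Perm (Fin n)) (μ : Fin n → Fin n) : SimpleGraph (Fin n) :=
  SimpleGraph.fromRel fun u v => (u : ℕ) + 1 = v ∨ (∃ j, F j u = v) ∨ μ u = v

theorem GB_conn {n : ℕ} (hn : 0 < n) (F : Fin 4 → Equiv.Perm (Fin n)) (μ : Fin n → Fin n) : (GB F μ).Connected := by
  have key : ∀ m (hm : m < n), (GB F μ).Reachable ⟨0, hn⟩ ⟨m, hm⟩ := by
    intro m
    induction m with
    | zero => exact fun _ => SimpleGraph.Reachable.refl _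
    | succ m ih =>
      intro hm
      refine (ih (by omega)).trans (SimpleGraph.Adj.reachable ?_)
      rw [GB, SimpleGraph.fromRel_adj]
      refine ⟨?_, Or.inl (Or.inl rfl)⟩
      intro h
      have := congrArg Fin.val h
      simp at this
  have : Nonempty (Fin n) := ⟨⟨0, hn⟩⟩
  exact ⟨fun a b => (key a.1 a.2).symm.trans (key b.1 b.2)⟩

theorem GB_deg {n : ℕ} (F : Fin 4 → Equiv.Perm (Fin n)) (μ : Fin n → Fin n) (hμ : ∀ v, μ (μ v) = v) (v : Fin n) :
    ((GB F μ).neighborSet v).ncard ≤ 11 := by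
  have h : (GB F μ).neighborSet v ⊆ ↑(((Finset.univ.filter fun u : Fin n => (u : ℕ) + 1 = v) ∪ (Finset.univ.filter fun u : Fin n => (v : ℕ) + 1 = u)) ∪
      (((Finset.univ : Finset (Fin 4)).image fun j => F j v) ∪ ((Finset.univ : Finset (Fin 4)).image fun j => (F j).symm v)) ∪ {μ v}) := by
    intro u hu
    rw [SimpleGraph.mem_neighborSet, GB, SimpleGraph.fromRel_adj] at hu
    rw [Finset.mem_coe, Finset.mem_union, Finset.mem_union, Finset.mem_union, Finset.mem_union, Finset.mem_filter, Finset.mem_filter, Finset.mem_image,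
      Finset.mem_image, Finset.mem_singleton]
    rcases hu.2 with (h | ⟨j, h⟩ | h) | (h | ⟨j, h⟩ | h)
    · exact Or.inl (Or.inl (Or.inr ⟨Finset.mem_univ _, h⟩))
    · exact Or.inl (Or.inr (Or.inl ⟨j, Finset.mem_univ _, h⟩))
    · exact Or.inr h.symm
    · exact Or.inl (Or.inl (Or.inl ⟨Finset.mem_univ _, h⟩))
    · refine Or.inl (Or.inr (Or.inr ⟨j, Finset.mem_univ _, ?_⟩))
      rw [← h, (F j).symm_apply_apply]
    · refine Or.inr ?_
      rw [← h, hμ]
  have h1 := Set.ncard_le_ncard h (Finset.finite_toSet _)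
  rw [Set.ncard_coe_finset] at h1
  have c1 : (Finset.univ.filter fun u : Fin n => (u : ℕ) + 1 = v).card ≤ 1 := by
    rw [Finset.card_le_one]
    intro a ha b hb
    have ha' := (Finset.mem_filter.1 ha).2
    have hb' := (Finset.mem_filter.1 hb).2
    exact Fin.ext (by omega)
  have c2 : (Finset.univ.filter fun u : Fin n => (v : ℕ) + 1 = u).card ≤ 1 := by
    rw [Finset.card_le_one]
    intro a ha b hb
    have ha' := (Finset.mem_filter.1 ha).2
    have hb' := (Finset.mem_filter.1 hb).2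
    exact Fin.ext (by omega)
  have c3 : ((Finset.univ : Finset (Fin 4)).image fun j => F j v).card ≤ 4 := Finset.card_image_le.trans (by simp)
  have c4 : ((Finset.univ : Finset (Fin 4)).image fun j => (F j).symm v).card ≤ 4 := Finset.card_image_le.trans (by simp)
  have d1 := Finset.card_union_le (Finset.univ.filter fun u : Fin n => (u : ℕ) + 1 = v) (Finset.univ.filter fun u : Fin n => (v : ℕ) + 1 = u)
  have d2 := Finset.card_union_le ((Finset.univ : Finset (Fin 4)).image fun j => F j v) ((Finset.univ : Finset (Fin 4)).image fun j => (F j).symm v)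
  have d3 := Finset.card_union_le ((Finset.univ.filter fun u : Fin n => (u : ℕ) + 1 = v) ∪ (Finset.univ.filter fun u : Fin n => (v : ℕ) + 1 = u))
    (((Finset.univ : Finset (Fin 4)).image fun j => F j v) ∪ ((Finset.univ : Finset (Fin 4)).image fun j => (F j).symm v))
  have d4 := Finset.card_union_le (((Finset.univ.filter fun u : Fin n => (u : ℕ) + 1 = v) ∪ (Finset.univ.filter fun u : Fin n => (v : ℕ) + 1 = u)) ∪
    (((Finset.univ : Finset (Fin 4)).image fun j => F j v) ∪ ((Finset.univ : Finset (Fin 4)).image fun j => (F j).symm v))) {μ v}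
  rw [Finset.card_singleton] at d4
  omega

theorem GB_edges {n m r : ℕ} (hn : 0 < n) (hm : 2 * m + r = n) (F : Fin 4 → Equiv.Perm (Fin n)) (e : Fin n ≃ Fin m ⊕ (Fin m ⊕ Fin r))
    (π : Equiv.Perm (Fin n)) : 2 * (GB F (mu e π)).edgeSet.ncard + 2 ≤ 11 * n := by
  obtain ⟨k, hk⟩ : ∃ k, n = k + 1 := ⟨n - 1, by omega⟩
  have h : (GB F (mu e π)).edgeSet ⊆ ↑(((Finset.univ : Finset (Fin k)).image (fun i : Fin k => s((⟨i.val, by have := i.isLt; omega⟩ : Fin n), (⟨i.val + 1, by have := i.isLt; omega⟩ : Fin n))) ∪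
      ((Finset.univ : Finset (Fin 4 × Fin n)).image fun p => s(p.2, F p.1 p.2))) ∪
      ((Finset.univ : Finset (Fin m)).image fun i => s(π (e.symm (.inl i)), π (e.symm (.inr (.inl i)))))) := by
    intro x
    induction x with
    | _ u v =>
      intro he
      rw [SimpleGraph.mem_edgeSet, GB, SimpleGraph.fromRel_adj] at he
      rw [Finset.mem_coe, Finset.mem_union, Finset.mem_union]
      have aux : ∀ u v : Fin n, (u : ℕ) + 1 = v →
          s(u, v) ∈ (Finset.univ : Finset (Fin k)).image (fun i : Fin k => s((⟨i.val, by have := i.isLt; omega⟩ : Fin n), (⟨i.val + 1, by have := i.isLt; omega⟩ : Fin n))) := by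
        intro u v h
        have := v.isLt
        rw [Finset.mem_image]
        refine ⟨⟨u, by omega⟩, Finset.mem_univ _, ?_⟩
        have e1 : (⟨(u : ℕ) + 1, by omega⟩ : Fin n) = v := Fin.ext h
        rw [e1]
      have auxm : ∀ u v : Fin n, u ≠ v → mu e π u = v →
          s(u, v) ∈ (Finset.univ : Finset (Fin m)).image fun i => s(π (e.symm (.inl i)), π (e.symm (.inr (.inl i)))) := by
        intro u v huv h
        rw [Finset.mem_image]
        have hu : u = π (e.symm (e (π.symm u))) := by rw [e.symm_apply_apply, π.apply_symm_apply]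
        rcases hx : e (π.symm u) with i | i | i
        · refine ⟨i, Finset.mem_univ _, ?_⟩
          rw [hx] at hu
          have hv : v = π (e.symm (.inr (.inl i))) := by
            rw [← h, mu, hx]
            rfl
          rw [← hu, ← hv]
        · refine ⟨i, Finset.mem_univ _, ?_⟩
          rw [hx] at hu
          have hv : v = π (e.symm (.inl i)) := by
            rw [← h, mu, hx]
            rfl
          rw [← hu, ← hv, Sym2.eq_swap]
        · exfalso
          rw [hx] at hu
          have hv : v = π (e.symm (.inr (.inr i))) := by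
            rw [← h, mu, hx]
            rfl
          exact huv (hu.trans hv.symm)
      rcases he.2 with (h | ⟨j, h⟩ | h) | (h | ⟨j, h⟩ | h)
      · exact Or.inl (Or.inl (aux u v h))
      · exact Or.inl (Or.inr (Finset.mem_image.2 ⟨(j, u), Finset.mem_univ _, by rw [h]⟩))
      · exact Or.inr (auxm u v he.1 h)
      · refine Or.inl (Or.inl ?_)
        rw [Sym2.eq_swap]
        exact aux v u h
      · refine Or.inl (Or.inr (Finset.mem_image.2 ⟨(j, v), Finset.mem_univ _, ?_⟩))
        rw [h, Sym2.eq_swap]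
      · refine Or.inr ?_
        rw [Sym2.eq_swap]
        exact auxm v u (Ne.symm he.1) h
  have h1 := Set.ncard_le_ncard h (Finset.finite_toSet _)
  rw [Set.ncard_coe_finset] at h1
  have c1 : ((Finset.univ : Finset (Fin k)).image (fun i : Fin k => s((⟨i.val, by have := i.isLt; omega⟩ : Fin n), (⟨i.val + 1, by have := i.isLt; omega⟩ : Fin n)))).card ≤ k :=
    Finset.card_image_le.trans (by simp)
  have c2 : ((Finset.univ : Finset (Fin 4 × Fin n)).image fun p => s(p.2, F p.1 p.2)).card ≤ 4 * n := Finset.card_image_le.trans (by simp)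
  have c3 : ((Finset.univ : Finset (Fin m)).image fun i => s(π (e.symm (.inl i)), π (e.symm (.inr (.inl i))))).card ≤ m :=
    Finset.card_image_le.trans (by simp)
  have d1 := Finset.card_union_le ((Finset.univ : Finset (Fin k)).image (fun i : Fin k => s((⟨i.val, by have := i.isLt; omega⟩ : Fin n), (⟨i.val + 1, by have := i.isLt; omega⟩ : Fin n))))
    ((Finset.univ : Finset (Fin 4 × Fin n)).image fun p => s(p.2, F p.1 p.2))
  have d2 := Finset.card_union_le ((Finset.univ : Finset (Fin k)).image (fun i : Fin k => s((⟨i.val, by have := i.isLt; omega⟩ : Fin n), (⟨i.val + 1, by have := i.isLt; omega⟩ : Fin n))) ∪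
    ((Finset.univ : Finset (Fin 4 × Fin n)).image fun p => s(p.2, F p.1 p.2)))
    ((Finset.univ : Finset (Fin m)).image fun i => s(π (e.symm (.inl i)), π (e.symm (.inr (.inl i)))))
  omega

/-- Some choice of the permutations is compatible with no word. -/
theorem exists_FB {n m r : ℕ} (hn : 3000 ≤ n) (hm : 2 * m + r = n) (hr : r ≤ 1) (e : Fin n ≃ Fin m ⊕ (Fin m ⊕ Fin r)) :
    ∃ (F : Fin 4 → Equiv.Perm (Fin n)) (π : Equiv.Perm (Fin n)), ∀ w ∈ Wd n,
      ¬ ((∀ j v, nr (w v) (w (F j v))) ∧ ∀ i : Fin m, nr (w (π (e.symm (.inl i)))) (w (π (e.symm (.inr (.inl i)))))) := by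
  by_contra hcon
  push Not at hcon
  have hn0 : 0 < n := by omega
  have h1 : (Finset.univ : Finset ((Fin 4 → Equiv.Perm (Fin n)) × Equiv.Perm (Fin n))) ⊆
      (Wd n).biUnion fun w => (Fintype.piFinset fun _ : Fin 4 => Finset.univ.filter fun σ : Equiv.Perm (Fin n) => ∀ v, nr (w v) (w (σ v))) ×ˢ
        Finset.univ.filter fun σ : Equiv.Perm (Fin n) => ∀ i : Fin m, nr (w (σ (e.symm (.inl i)))) (w (σ (e.symm (.inr (.inl i))))) := by
    intro p _
    obtain ⟨w, hw, h, h'⟩ := hcon p.1 p.2
    refine Finset.mem_biUnion.2 ⟨w, hw, Finset.mem_product.2 ⟨?_, ?_⟩⟩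
    · rw [Fintype.mem_piFinset]
      exact fun j => Finset.mem_filter.2 ⟨Finset.mem_univ _, h j⟩
    · exact Finset.mem_filter.2 ⟨Finset.mem_univ _, h'⟩
  have h2 := (Finset.card_le_card h1).trans Finset.card_biUnion_le
  rw [Finset.card_univ, Fintype.card_prod, Fintype.card_fun, Fintype.card_perm, Fintype.card_fin, Fintype.card_fin] at h2
  have h3 : ((n.factorial : ℝ) ^ 4 * n.factorial) ≤ ∑ w ∈ Wd n,
      ((Finset.univ.filter fun σ : Equiv.Perm (Fin n) => ∀ v, nr (w v) (w (σ v))).card : ℝ) ^ 4 *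
        ((Finset.univ.filter fun σ : Equiv.Perm (Fin n) => ∀ i : Fin m, nr (w (σ (e.symm (.inl i)))) (w (σ (e.symm (.inr (.inl i)))))).card : ℝ) := by
    have h4 : ∀ w : Fin n → Fin 5, ((Fintype.piFinset fun _ : Fin 4 => Finset.univ.filter fun σ : Equiv.Perm (Fin n) => ∀ v, nr (w v) (w (σ v))) ×ˢ
        Finset.univ.filter fun σ : Equiv.Perm (Fin n) => ∀ i : Fin m, nr (w (σ (e.symm (.inl i)))) (w (σ (e.symm (.inr (.inl i)))))).card =
        (Finset.univ.filter fun σ : Equiv.Perm (Fin n) => ∀ v, nr (w v) (w (σ v))).card ^ 4 *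
        (Finset.univ.filter fun σ : Equiv.Perm (Fin n) => ∀ i : Fin m, nr (w (σ (e.symm (.inl i)))) (w (σ (e.symm (.inr (.inl i)))))).card := by
      intro w
      rw [Finset.card_product, Fintype.card_piFinset, Finset.prod_const, Finset.card_univ, Fintype.card_fin]
    rw [Finset.sum_congr rfl fun w _ => h4 w] at h2
    exact_mod_cast h2
  set B : ℝ := (Real.exp 1 * √n) ^ 5 with hB
  have hB0 : 0 ≤ B := by positivity
  set C : ℝ := Real.exp (7 / 10) * Real.exp (-(47 / 1000 * (n : ℝ))) with hC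
  have hC0 : 0 ≤ C := by positivity
  have h5 : ∀ w ∈ Wd n, ((Finset.univ.filter fun σ : Equiv.Perm (Fin n) => ∀ v, nr (w v) (w (σ v))).card : ℝ) ^ 4 *
        ((Finset.univ.filter fun σ : Equiv.Perm (Fin n) => ∀ i : Fin m, nr (w (σ (e.symm (.inl i)))) (w (σ (e.symm (.inr (.inl i)))))).card : ℝ) ≤
      (n.factorial : ℝ) ^ 4 * n.factorial * (2 * B ^ 5 * (((∏ _v : Fin n, (1 / 3 : ℝ)) + ∑ p : Fin 5 × Bool, ∏ v, rC ((sg p).symm (w v))) * C)) := by
    intro w hw
    obtain ⟨s, hs, hs2, hest⟩ := word_estB hn hm hr w (Finset.mem_filter.1 hw).2.2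
    have a1 := perm_bound hn0 w s hs
    have a2 := match_bound hn0 hm hr e w s hs hs2
    have a3 : 0 ≤ ∏ v, (tau s w (w v) / s (w v)) := Finset.prod_nonneg fun v _ => div_nonneg (tau_nonneg hs w _) (hs _).le
    have hqq : 0 ≤ qq s w := by
      unfold qq
      exact Finset.sum_nonneg fun i _ => mul_nonneg (mul_nonneg (hs i).le (by positivity)) (tau_nonneg hs w i)
    have a4 : 0 ≤ ∏ v, (1 / s (w v)) := Finset.prod_nonneg fun v _ => by
      have := hs (w v)
      positivity
    calc ((Finset.univ.filter fun σ : Equiv.Perm (Fin n) => ∀ v, nr (w v) (w (σ v))).card : ℝ) ^ 4 *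
        ((Finset.univ.filter fun σ : Equiv.Perm (Fin n) => ∀ i : Fin m, nr (w (σ (e.symm (.inl i)))) (w (σ (e.symm (.inr (.inl i)))))).card : ℝ)
        ≤ (B * n.factorial * ∏ v, (tau s w (w v) / s (w v))) ^ 4 * (B * n.factorial * (2 * qq s w ^ m * ∏ v, (1 / s (w v)))) :=
          mul_le_mul (pow_le_pow_left₀ (Nat.cast_nonneg _) a1 4) a2 (Nat.cast_nonneg _) (by positivity)
      _ = (n.factorial : ℝ) ^ 4 * n.factorial * (2 * B ^ 5 * ((∏ v, (tau s w (w v) / s (w v))) ^ 4 * (qq s w ^ m * ∏ v, (1 / s (w v))))) := by ring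
      _ ≤ _ := by
          refine mul_le_mul_of_nonneg_left (mul_le_mul_of_nonneg_left hest (by positivity)) (by positivity)
  have h6 := h3.trans (Finset.sum_le_sum h5)
  rw [← Finset.mul_sum, ← Finset.mul_sum, ← Finset.sum_mul] at h6
  have h7 : ∑ w ∈ Wd n, ((∏ _v : Fin n, (1 / 3 : ℝ)) + ∑ p : Fin 5 × Bool, ∏ v, rC ((sg p).symm (w v))) ≤ 5 / 3 + 10 * (856 / 246) := by
    refine le_trans (Finset.sum_le_sum_of_subset_of_nonneg (t := Finset.univ.filter (fun w : Fin n → Fin 5 => POk w)) ?_ fun w _ _ => ?_) ?_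
    · intro w hw
      exact Finset.mem_filter.2 ⟨Finset.mem_univ _, (Finset.mem_filter.1 hw).2.1⟩
    · exact add_nonneg (Finset.prod_nonneg fun v _ => by norm_num) (Finset.sum_nonneg fun p _ => Finset.prod_nonneg fun v _ => rC_nonneg _)
    · rw [Finset.sum_add_distrib, Finset.sum_comm]
      refine add_le_add ?_ ?_
      · have := sum_words (fun _ => 1 / 3) (fun _ => 1) (1 / 3) (fun _ => by norm_num) (by norm_num) (fun _ => by norm_num) (fun _ => by norm_num) n hn0
        refine this.trans (le_of_eq ?_)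
        simp
        norm_num
      · calc ∑ p : Fin 5 × Bool, ∑ w ∈ Finset.univ.filter (fun w : Fin n → Fin 5 => POk w), ∏ v, rC ((sg p).symm (w v))
            ≤ ∑ _p : Fin 5 × Bool, (856 / 246 : ℝ) := Finset.sum_le_sum fun p _ => sum_pC p n hn0
          _ = 10 * (856 / 246) := by
              rw [Finset.sum_const, Finset.card_univ]
              simp
  have h8 := final_num hn
  have h9 : 2 * B ^ 5 * ((∑ w ∈ Wd n, ((∏ _v : Fin n, (1 / 3 : ℝ)) + ∑ p : Fin 5 × Bool, ∏ v, rC ((sg p).symm (w v)))) * C) < 1 := by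
    refine lt_of_le_of_lt ?_ h8
    rw [hB, ← pow_mul]
    refine mul_le_mul_of_nonneg_left (mul_le_mul_of_nonneg_right h7 hC0) (by positivity)
  have h10 : (0 : ℝ) < (n.factorial : ℝ) ^ 4 * n.factorial := by
    have := Nat.factorial_pos n
    positivity
  nlinarith

end Pool.Agent.MP_fb5c70_coU
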