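import Pool.Agent.Lib.MP_fb5c70_coU.Graph

/-!
# The theorem
-/

set_option autoImplicit false

open scoped BigOperators

namespace Pool.Agent.MP_fb5c70_coU

theorem main (n : ℕ) (hn : 150 ≤ n) : ∃ G : SimpleGraph (Fin n), G.Connected ∧ G.edgeSet.ncard + 1 ≤ 6 * n ∧
    ∃ H : SimpleGraph (Fin (2 * n - 1)), H.CliqueFree 3 ∧
      ¬ ∃ f : Fin n → Fin (2 * n - 1), Function.Injective f ∧ ∀ u v, G.Adj u v → Hᶜ.Adj (f u) (f v) := by
  obtain ⟨F, hF⟩ := exists_F hn
  refine ⟨GF F, GF_conn (by omega) F, GF_edges (by omega) F, HP _, HP_free _, ?_⟩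
  rintro ⟨f, hf, hadj⟩
  have hedge : ∀ u v, (GF F).Adj u v → nr (cl (f u)) (cl (f v)) := by
    intro u v h
    have := (hadj u v h).2
    exact not_not.1 this
  refine hF (fun v => cl (f v)) ?_ ?_
  · rw [Wd, Finset.mem_filter]
    refine ⟨Finset.mem_univ _, ?_, ?_⟩
    · intro v v' h
      apply hedge
      rw [GF, SimpleGraph.fromRel_adj]
      refine ⟨?_, Or.inl (Or.inl h)⟩
      intro h'
      rw [h'] at h
      omega
    · intro i
      have h1 : cnt (fun v => cl (f v)) i ≤ (Finset.univ.filter fun a : Fin (2 * n - 1) => cl a = i).card := by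
        refine Finset.card_le_card_of_injOn f ?_ (fun a _ b _ h => hf h)
        intro v hv
        simp only [Finset.coe_filter, Finset.mem_univ, true_and, Set.mem_ofPred_eq] at hv ⊢
        exact hv
      have h2 := cl_card (2 * n - 1) i
      omega
  · intro j v
    by_cases h : v = F j v
    · show nr (cl (f v)) (cl (f (F j v)))
      rw [← h]
      exact nr_refl _
    · apply hedge
      rw [GF, SimpleGraph.fromRel_adj]
      exact ⟨h, Or.inl (Or.inr ⟨j, rfl⟩)⟩

end Pool.Agent.MP_fb5c70_coU
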