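import Pool.Agent.Lib.MP_fb5c70_coU.GraphB

/-!
# The theorem on graphs of maximum degree at most 11
-/

set_option autoImplicit false

open scoped BigOperators

namespace Pool.Agent.MP_fb5c70_coU

theorem mainB (n : ℕ) (hn : 3000 ≤ n) : ∃ G : SimpleGraph (Fin n), G.Connected ∧ (∀ v, (G.neighborSet v).ncard ≤ 11) ∧ 2 * G.edgeSet.ncard + 2 ≤ 11 * n ∧
    ∃ H : SimpleGraph (Fin (2 * n - 1)), H.CliqueFree 3 ∧
      ¬ ∃ f : Fin n → Fin (2 * n - 1), Function.Injective f ∧ ∀ u v, G.Adj u v → Hᶜ.Adj (f u) (f v) := by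
  obtain ⟨m, r, hm, hr⟩ : ∃ m r, 2 * m + r = n ∧ r ≤ 1 := ⟨n / 2, n % 2, by omega, by omega⟩
  have e : Fin n ≃ Fin m ⊕ (Fin m ⊕ Fin r) := Fintype.equivOfCardEq (by
    rw [Fintype.card_sum, Fintype.card_sum, Fintype.card_fin, Fintype.card_fin, Fintype.card_fin]
    omega)
  obtain ⟨F, π, hF⟩ := exists_FB hn hm hr e
  refine ⟨GB F (mu e π), GB_conn (by omega) F _, GB_deg F _ (mu_mu e π), GB_edges (by omega) hm F e π, HP _, HP_free _, ?_⟩
  rintro ⟨f, hf, hadj⟩
  have hedge : ∀ u v, (GB F (mu e π)).Adj u v → nr (cl (f u)) (cl (f v)) := by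
    intro u v h
    have := (hadj u v h).2
    exact not_not.1 this
  refine hF (fun v => cl (f v)) ?_ ⟨?_, ?_⟩
  · rw [Wd, Finset.mem_filter]
    refine ⟨Finset.mem_univ _, ?_, ?_⟩
    · intro v v' h
      apply hedge
      rw [GB, SimpleGraph.fromRel_adj]
      refine ⟨?_, Or.inl (Or.inl h)⟩
      intro h'
      rw [h'] at h
      omega
    · intro i
      have h1 : cnt (fun v => cl (f v)) i ≤ (Finset.univ.filter fun a : Fin (2 * n - 1) => cl a = i).card := by
        refine Finset.card_le_card_of_injOn f ?_ (fun a _ b _ h => hf h)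
        intro v hv
        simp only [Finset.coe_filter, Finset.mem_univ, true_and, Set.mem_ofPred_eq] at hv ⊢
        exact hv
      have h2 := cl_card (2 * n - 1) i
      omega
  · intro j v
    by_cases h : v = F j v
    · show nr (cl (f v)) (cl (f (F j v)))
      rw [← h]
      exact nr_refl _
    · apply hedge
      rw [GB, SimpleGraph.fromRel_adj]
      exact ⟨h, Or.inl (Or.inr (Or.inl ⟨j, rfl⟩))⟩
  · intro i
    have h1 : mu e π (π (e.symm (.inl i))) = π (e.symm (.inr (.inl i))) := by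
      unfold mu
      rw [π.symm_apply_apply, e.apply_symm_apply]
      rfl
    apply hedge
    rw [GB, SimpleGraph.fromRel_adj]
    refine ⟨?_, Or.inl (Or.inr (Or.inr h1))⟩
    intro h
    have h2 := e.symm.injective (π.injective h)
    exact absurd h2 (by simp)

end Pool.Agent.MP_fb5c70_coU
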