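import Pool.Agent.Lib.MP_fb5c70_coU.PermBound

/-!
# The number of the matchings compatible with a word

The positions are split in `K`, `K` and a rest: `e : Fin n ≃ Fin m ⊕ Fin m ⊕ Fin r`.
-/

set_option autoImplicit false

open scoped BigOperators

namespace Pool.Agent.MP_fb5c70_coU

theorem sum_pairs (m r : ℕ) (z : Fin 5 → ℝ) :
    ∑ u : Fin m ⊕ (Fin m ⊕ Fin r) → Fin 5, (if ∀ i, nr (u (.inl i)) (u (.inr (.inl i))) then ∏ x, z (u x) else 0) =
      (∑ i, z i * (z i + z (i + 2) + z (i + 3))) ^ m * (∑ i, z i) ^ r := by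
  have h0 : ∀ a b : Fin 5, (if nr a b then z b else 0) = if nr a b then z b else 0 := fun _ _ => rfl
  rw [← Equiv.sum_comp (Equiv.sumArrowEquivProdArrow (Fin m) (Fin m ⊕ Fin r) (Fin 5)).symm, Fintype.sum_prod_type]
  have h1 : ∀ f : Fin m → Fin 5, ∑ y : Fin m ⊕ Fin r → Fin 5,
      (if ∀ i, nr (((Equiv.sumArrowEquivProdArrow (Fin m) (Fin m ⊕ Fin r) (Fin 5)).symm (f, y)) (.inl i))
          (((Equiv.sumArrowEquivProdArrow (Fin m) (Fin m ⊕ Fin r) (Fin 5)).symm (f, y)) (.inr (.inl i)))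
        then ∏ x, z (((Equiv.sumArrowEquivProdArrow (Fin m) (Fin m ⊕ Fin r) (Fin 5)).symm (f, y)) x) else 0) =
      (∏ i, (z (f i) * (z (f i) + z (f i + 2) + z (f i + 3)))) * (∑ i, z i) ^ r := by
    intro f
    rw [← Equiv.sum_comp (Equiv.sumArrowEquivProdArrow (Fin m) (Fin r) (Fin 5)).symm, Fintype.sum_prod_type]
    have h2 : ∀ (g : Fin m → Fin 5) (h : Fin r → Fin 5),
        (if ∀ i, nr (f i) (g i) then ∏ x, z (((Equiv.sumArrowEquivProdArrow (Fin m) (Fin m ⊕ Fin r) (Fin 5)).symm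
          (f, (Equiv.sumArrowEquivProdArrow (Fin m) (Fin r) (Fin 5)).symm (g, h))) x) else 0) =
        (if ∀ i, nr (f i) (g i) then ∏ i, z (g i) else 0) * ((∏ i, z (f i)) * ∏ i, z (h i)) := by
      intro g h
      by_cases hh : ∀ i, nr (f i) (g i)
      · rw [if_pos hh, if_pos hh, Fintype.prod_sum_type, Fintype.prod_sum_type]
        show (∏ i, z (f i)) * ((∏ i, z (g i)) * ∏ i, z (h i)) = (∏ i, z (g i)) * ((∏ i, z (f i)) * ∏ i, z (h i))
        ring
      · rw [if_neg hh, if_neg hh, zero_mul]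
    have h3 : ∑ g : Fin m → Fin 5, (if ∀ i, nr (f i) (g i) then ∏ i, z (g i) else 0) = ∏ i, (z (f i) + z (f i + 2) + z (f i + 3)) := by
      rw [← Finset.sum_filter]
      have e : (Finset.univ.filter fun g : Fin m → Fin 5 => ∀ i, nr (f i) (g i)) =
          Fintype.piFinset fun i => Finset.univ.filter fun j => nr (f i) j := by
        ext u
        simp only [Finset.mem_filter, Finset.mem_univ, true_and, Fintype.mem_piFinset]
      rw [e, ← Finset.prod_univ_sum (fun i => Finset.univ.filter fun j => nr (f i) j) (fun _ j => z j)]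
      exact Finset.prod_congr rfl fun i _ => sum_filter_nr z (f i)
    have h4 : ∑ h : Fin r → Fin 5, ∏ i, z (h i) = (∑ i, z i) ^ r := (Fintype.sum_pow z r).symm
    calc ∑ g : Fin m → Fin 5, ∑ h : Fin r → Fin 5, (if ∀ i, nr (f i) (g i) then ∏ x, z (((Equiv.sumArrowEquivProdArrow (Fin m) (Fin m ⊕ Fin r) (Fin 5)).symm
          (f, (Equiv.sumArrowEquivProdArrow (Fin m) (Fin r) (Fin 5)).symm (g, h))) x) else 0)
        = ∑ g : Fin m → Fin 5, ∑ h : Fin r → Fin 5, (if ∀ i, nr (f i) (g i) then ∏ i, z (g i) else 0) * ((∏ i, z (f i)) * ∏ i, z (h i)) :=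
          Finset.sum_congr rfl fun g _ => Finset.sum_congr rfl fun h _ => h2 g h
      _ = ∑ g : Fin m → Fin 5, (if ∀ i, nr (f i) (g i) then ∏ i, z (g i) else 0) * ((∏ i, z (f i)) * (∑ i, z i) ^ r) := by
          refine Finset.sum_congr rfl fun g _ => ?_
          rw [← Finset.mul_sum, ← Finset.mul_sum, h4]
      _ = (∏ i, (z (f i) * (z (f i) + z (f i + 2) + z (f i + 3)))) * (∑ i, z i) ^ r := by
          rw [← Finset.sum_mul, h3, Finset.prod_mul_distrib]
          ring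
  rw [Finset.sum_congr rfl fun f _ => h1 f, ← Finset.sum_mul]
  congr 1
  exact (Fintype.sum_pow (fun i => z i * (z i + z (i + 2) + z (i + 3))) m).symm

/-- The matchings which are compatible with `w`. -/
theorem match_bound {n m r : ℕ} (hn : 0 < n) (hm : 2 * m + r = n) (hr : r ≤ 1) (e : Fin n ≃ Fin m ⊕ (Fin m ⊕ Fin r)) (w : Fin n → Fin 5)
    (s : Fin 5 → ℝ) (hs : ∀ i, 0 < s i) (hs2 : ∀ i, s i ≤ 2) :
    ((Finset.univ.filter fun σ : Equiv.Perm (Fin n) => ∀ i : Fin m, nr (w (σ (e.symm (.inl i)))) (w (σ (e.symm (.inr (.inl i)))))).card : ℝ) ≤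
      (Real.exp 1 * √n) ^ 5 * n.factorial * (2 * qq s w ^ m * ∏ v, (1 / s (w v))) := by
  have hn' : (0 : ℝ) < n := by exact_mod_cast hn
  have h1 := card_perm w (Finset.univ.filter fun u => ∀ i : Fin m, nr (u (e.symm (.inl i))) (u (e.symm (.inr (.inl i)))))
    (fun i => s i * cnt w i) (fun i => mul_nonneg (hs i).le (Nat.cast_nonneg _))
  have h2 : (Finset.univ.filter fun σ : Equiv.Perm (Fin n) => w ∘ σ ∈ Finset.univ.filter fun u : Fin n → Fin 5 =>
      ∀ i : Fin m, nr (u (e.symm (.inl i))) (u (e.symm (.inr (.inl i))))) =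
      Finset.univ.filter fun σ : Equiv.Perm (Fin n) => ∀ i : Fin m, nr (w (σ (e.symm (.inl i)))) (w (σ (e.symm (.inr (.inl i))))) := by
    ext σ
    simp only [Finset.mem_filter, Finset.mem_univ, true_and, Function.comp]
  have h3 : ∑ u ∈ Finset.univ.filter (fun u : Fin n → Fin 5 => ∀ i : Fin m, nr (u (e.symm (.inl i))) (u (e.symm (.inr (.inl i))))),
      ∏ v, (s (u v) * cnt w (u v) : ℝ) = ((n : ℝ) ^ 2 * qq s w) ^ m * (∑ i, s i * cnt w i) ^ r := by
    rw [Finset.sum_filter, ← Equiv.sum_comp (Equiv.arrowCongr e.symm (Equiv.refl (Fin 5)))]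
    have h4 := sum_pairs m r fun i => (s i * cnt w i : ℝ)
    have h5 : ∑ i, (s i * cnt w i : ℝ) * (s i * cnt w i + s (i + 2) * cnt w (i + 2) + s (i + 3) * cnt w (i + 3)) = (n : ℝ) ^ 2 * qq s w := by
      unfold qq
      rw [Finset.mul_sum]
      refine Finset.sum_congr rfl fun i _ => ?_
      unfold tau
      field_simp
    rw [h5] at h4
    rw [← h4]
    refine Finset.sum_congr rfl fun u _ => ?_
    have h6 : ∏ v, (s ((Equiv.arrowCongr e.symm (Equiv.refl (Fin 5))) u v) * cnt w ((Equiv.arrowCongr e.symm (Equiv.refl (Fin 5))) u v) : ℝ) =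
        ∏ x, (s (u x) * cnt w (u x) : ℝ) := by
      rw [← Equiv.prod_comp e fun x => (s (u x) * cnt w (u x) : ℝ)]
      rfl
    rw [h6]
    have h7 : (∀ i : Fin m, nr ((Equiv.arrowCongr e.symm (Equiv.refl (Fin 5))) u (e.symm (.inl i)))
        ((Equiv.arrowCongr e.symm (Equiv.refl (Fin 5))) u (e.symm (.inr (.inl i))))) ↔ ∀ i, nr (u (.inl i)) (u (.inr (.inl i))) := by
      refine forall_congr' fun i => ?_
      show nr (u (e (e.symm (.inl i)))) (u (e (e.symm (.inr (.inl i))))) ↔ _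
      rw [e.apply_symm_apply, e.apply_symm_apply]
    simp only [h7]
  rw [h2, h3, Finset.prod_mul_distrib] at h1
  have hc : 0 < ∏ v, (cnt w (w v) : ℝ) := Finset.prod_pos fun v _ => by exact_mod_cast cnt_pos w v
  have hS : 0 < ∏ v, s (w v) := Finset.prod_pos fun v _ => hs _
  have hq : 0 ≤ qq s w := by
    unfold qq
    exact Finset.sum_nonneg fun i _ => mul_nonneg (mul_nonneg (hs i).le (by positivity)) (tau_nonneg hs w i)
  have h8 := prod_fact hn w
  have h9 : ((n : ℝ) ^ 2 * qq s w) ^ m * (∑ i, s i * cnt w i) ^ r ≤ (n : ℝ) ^ n * (2 * qq s w ^ m) := by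
    have a1 : ∑ i, (s i * cnt w i : ℝ) ≤ 2 * n := by
      have a2 : ∑ i, (cnt w i : ℝ) = n := by
        rw [Fin.sum_univ_five]
        exact_mod_cast sum_cnt w
      calc ∑ i, (s i * cnt w i : ℝ) ≤ ∑ i, 2 * (cnt w i : ℝ) := Finset.sum_le_sum fun i _ => mul_le_mul_of_nonneg_right (hs2 i) (Nat.cast_nonneg _)
        _ = 2 * n := by rw [← Finset.mul_sum, a2]
    have a0 : 0 ≤ ∑ i, (s i * cnt w i : ℝ) := Finset.sum_nonneg fun i _ => mul_nonneg (hs i).le (Nat.cast_nonneg _)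
    have a3 : (∑ i, (s i * cnt w i : ℝ)) ^ r ≤ 2 * (n : ℝ) ^ r := by
      rcases Nat.le_one_iff_eq_zero_or_eq_one.1 hr with rfl | rfl
      · norm_num
      · rw [pow_one, pow_one]
        exact a1
    calc ((n : ℝ) ^ 2 * qq s w) ^ m * (∑ i, s i * cnt w i) ^ r ≤ ((n : ℝ) ^ 2 * qq s w) ^ m * (2 * (n : ℝ) ^ r) :=
          mul_le_mul_of_nonneg_left a3 (by positivity)
      _ = (n : ℝ) ^ (2 * m + r) * (2 * qq s w ^ m) := by
          rw [mul_pow, pow_add, pow_mul]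
          ring
      _ = (n : ℝ) ^ n * (2 * qq s w ^ m) := by rw [hm]
  have h6 : (1 / Real.exp 1) ^ n * (n : ℝ) ^ n ≤ n.factorial := by
    refine le_trans (le_of_eq ?_) (le_fact n hn)
    rw [← mul_pow]
    congr 1
    ring
  have h10 : ∏ v, (1 / s (w v)) = 1 / ∏ v, s (w v) := by
    rw [Finset.prod_div_distrib]
    simp
  rw [h10, ← mul_assoc, mul_one_div, le_div_iff₀ hS]
  set A : ℝ := ((Finset.univ.filter fun σ : Equiv.Perm (Fin n) =>
    ∀ i : Fin m, nr (w (σ (e.symm (.inl i)))) (w (σ (e.symm (.inr (.inl i)))))).card : ℝ)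
  have h7 : A * (∏ v, s (w v)) * ∏ v, (cnt w (w v) : ℝ) ≤
      ((Real.exp 1 * √n) ^ 5 * n.factorial * (2 * qq s w ^ m)) * ∏ v, (cnt w (w v) : ℝ) := by
    calc A * (∏ v, s (w v)) * ∏ v, (cnt w (w v) : ℝ) = A * ((∏ v, s (w v)) * ∏ v, (cnt w (w v) : ℝ)) := by ring
      _ ≤ ((∏ i, (cnt w i).factorial : ℕ) : ℝ) * (((n : ℝ) ^ 2 * qq s w) ^ m * (∑ i, s i * cnt w i) ^ r) := h1
      _ ≤ ((∏ i, (cnt w i).factorial : ℕ) : ℝ) * ((n : ℝ) ^ n * (2 * qq s w ^ m)) := mul_le_mul_of_nonneg_left h9 (Nat.cast_nonneg _)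
      _ ≤ ((Real.exp 1 * √n) ^ 5 * ((1 / Real.exp 1) ^ n * ∏ v, (cnt w (w v) : ℝ))) * ((n : ℝ) ^ n * (2 * qq s w ^ m)) :=
          mul_le_mul_of_nonneg_right h8 (by positivity)
      _ = (Real.exp 1 * √n) ^ 5 * ((1 / Real.exp 1) ^ n * (n : ℝ) ^ n) * ((2 * qq s w ^ m) * ∏ v, (cnt w (w v) : ℝ)) := by ring
      _ ≤ (Real.exp 1 * √n) ^ 5 * n.factorial * ((2 * qq s w ^ m) * ∏ v, (cnt w (w v) : ℝ)) :=
          mul_le_mul_of_nonneg_right (mul_le_mul_of_nonneg_left h6 (by positivity)) (by positivity)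
      _ = ((Real.exp 1 * √n) ^ 5 * n.factorial * (2 * qq s w ^ m)) * ∏ v, (cnt w (w v) : ℝ) := by ring
  exact le_of_mul_le_mul_right h7 hc

end Pool.Agent.MP_fb5c70_coU
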