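import Pool.Agent.Lib.MP_fb5c70_coU.PermCount

/-!
# The number of the permutations and of the matchings compatible with a word
-/

set_option autoImplicit false

open scoped BigOperators

namespace Pool.Agent.MP_fb5c70_coU

theorem fact_le (N n : ℕ) (h : N ≤ n) (hn : 0 < n) : (N.factorial : ℝ) ≤ (Real.exp 1 * √n) * (N / Real.exp 1) ^ N := by
  have hn1 : (1 : ℝ) ≤ √n := by
    rw [Real.one_le_sqrt]
    exact_mod_cast hn
  rcases Nat.eq_zero_or_pos N with rfl | hN
  · have := Real.exp_one_gt_d9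
    simp only [Nat.factorial_zero, Nat.cast_one, pow_zero, mul_one]
    nlinarith
  · have h1 : Stirling.stirlingSeq N ≤ Stirling.stirlingSeq 1 := by
      obtain ⟨M, rfl⟩ : ∃ M, N = M + 1 := ⟨N - 1, by omega⟩
      exact Stirling.stirlingSeq'_antitone (Nat.zero_le M)
    rw [Stirling.stirlingSeq_one] at h1
    have hN' : (0 : ℝ) < N := by exact_mod_cast hN
    have h2 : 0 < √(2 * (N : ℝ)) * (N / Real.exp 1) ^ N := by positivity
    have h3 : (N.factorial : ℝ) = Stirling.stirlingSeq N * (√(2 * (N : ℝ)) * (N / Real.exp 1) ^ N) := by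
      unfold Stirling.stirlingSeq
      field_simp
    rw [h3]
    calc Stirling.stirlingSeq N * (√(2 * (N : ℝ)) * (N / Real.exp 1) ^ N)
        ≤ Real.exp 1 / √2 * (√(2 * (N : ℝ)) * (N / Real.exp 1) ^ N) := mul_le_mul_of_nonneg_right h1 h2.le
      _ = Real.exp 1 * √N * (N / Real.exp 1) ^ N := by
          rw [Real.sqrt_mul (by norm_num)]
          have : √(2 : ℝ) ≠ 0 := by positivity
          field_simp
      _ ≤ Real.exp 1 * √n * (N / Real.exp 1) ^ N := by
          refine mul_le_mul_of_nonneg_right (mul_le_mul_of_nonneg_left (Real.sqrt_le_sqrt ?_) (Real.exp_pos 1).le) (by positivity)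
          exact_mod_cast h

theorem le_fact (n : ℕ) (hn : 0 < n) : ((n : ℝ) / Real.exp 1) ^ n ≤ n.factorial := by
  have h := Stirling.le_factorial_stirling n
  have h1 : (1 : ℝ) ≤ √(2 * Real.pi * n) := by
    rw [Real.one_le_sqrt]
    have h2 := Real.pi_gt_three
    have h3 : (1 : ℝ) ≤ n := by exact_mod_cast hn
    nlinarith
  refine le_trans ?_ h
  have h4 : (0 : ℝ) ≤ ((n : ℝ) / Real.exp 1) ^ n := by positivity
  nlinarith

theorem cnt_le {n : ℕ} (w : Fin n → Fin 5) (i : Fin 5) : cnt w i ≤ n := by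
  have := Finset.card_le_univ (Finset.univ.filter fun v => w v = i)
  rw [Fintype.card_fin] at this
  exact this

theorem cnt_pos {n : ℕ} (w : Fin n → Fin 5) (v : Fin n) : 0 < cnt w (w v) :=
  Finset.card_pos.2 ⟨v, Finset.mem_filter.2 ⟨Finset.mem_univ _, rfl⟩⟩

theorem prod_fact {n : ℕ} (hn : 0 < n) (w : Fin n → Fin 5) :
    ((∏ i, (cnt w i).factorial : ℕ) : ℝ) ≤ (Real.exp 1 * √n) ^ 5 * ((1 / Real.exp 1) ^ n * ∏ v, (cnt w (w v) : ℝ)) := by
  rw [prod_word w fun i => (cnt w i : ℝ)]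
  have h1 : (1 / Real.exp 1) ^ n = ∏ i : Fin 5, (1 / Real.exp 1) ^ cnt w i := by
    rw [Finset.prod_pow_eq_pow_sum]
    congr 1
    rw [Fin.sum_univ_five]
    exact (sum_cnt w).symm
  have h2 : (Real.exp 1 * √n) ^ 5 = ∏ _i : Fin 5, (Real.exp 1 * √n) := by
    rw [Finset.prod_const, Finset.card_univ, Fintype.card_fin]
  rw [h1, h2, ← Finset.prod_mul_distrib, ← Finset.prod_mul_distrib]
  push_cast
  refine Finset.prod_le_prod (fun i _ => Nat.cast_nonneg _) fun i _ => ?_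
  refine (fact_le (cnt w i) n (cnt_le w i) hn).trans (le_of_eq ?_)
  rw [div_eq_mul_one_div, mul_pow]
  ring

/-- The weighted sum of the classes which are not adjacent to `i`. -/
noncomputable def tau {n : ℕ} (s : Fin 5 → ℝ) (w : Fin n → Fin 5) (i : Fin 5) : ℝ :=
  (s i * cnt w i + s (i + 2) * cnt w (i + 2) + s (i + 3) * cnt w (i + 3)) / n

theorem tau_nonneg {n : ℕ} {s : Fin 5 → ℝ} (hs : ∀ i, 0 < s i) (w : Fin n → Fin 5) (i : Fin 5) : 0 ≤ tau s w i := by
  have h1 := (hs i).le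
  have h2 := (hs (i + 2)).le
  have h3 := (hs (i + 3)).le
  unfold tau
  positivity

/-- `∑ τ_i s_i x_i` -/
noncomputable def qq {n : ℕ} (s : Fin 5 → ℝ) (w : Fin n → Fin 5) : ℝ := ∑ i, s i * ((cnt w i : ℝ) / n) * tau s w i

theorem sum_filter_nr (z : Fin 5 → ℝ) (i : Fin 5) : ∑ j ∈ Finset.univ.filter (fun j => nr i j), z j = z i + z (i + 2) + z (i + 3) := by
  have h1 : i ≠ i + 2 ∧ i ≠ i + 3 ∧ i + 2 ≠ i + 3 := by
    revert i
    decide
  rw [nr_filter, Finset.sum_insert, Finset.sum_insert, Finset.sum_singleton, add_assoc]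
  · simp only [Finset.mem_singleton]
    exact h1.2.2
  · simp only [Finset.mem_insert, Finset.mem_singleton, not_or]
    exact ⟨h1.1, h1.2.1⟩

/-- The permutations which are compatible with `w`. -/
theorem perm_bound {n : ℕ} (hn : 0 < n) (w : Fin n → Fin 5) (s : Fin 5 → ℝ) (hs : ∀ i, 0 < s i) :
    ((Finset.univ.filter fun σ : Equiv.Perm (Fin n) => ∀ v, nr (w v) (w (σ v))).card : ℝ) ≤
      (Real.exp 1 * √n) ^ 5 * n.factorial * ∏ v, (tau s w (w v) / s (w v)) := by
  have hn' : (0 : ℝ) < n := by exact_mod_cast hn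
  have h1 := card_perm w (Finset.univ.filter fun u => ∀ v, nr (w v) (u v)) (fun i => s i * cnt w i) (fun i => mul_nonneg (hs i).le (Nat.cast_nonneg _))
  have h2 : (Finset.univ.filter fun σ : Equiv.Perm (Fin n) => w ∘ σ ∈ Finset.univ.filter fun u : Fin n → Fin 5 => ∀ v, nr (w v) (u v)) =
      Finset.univ.filter fun σ : Equiv.Perm (Fin n) => ∀ v, nr (w v) (w (σ v)) := by
    ext σ
    simp only [Finset.mem_filter, Finset.mem_univ, true_and, Function.comp]
  have h3 : ∑ u ∈ Finset.univ.filter (fun u : Fin n → Fin 5 => ∀ v, nr (w v) (u v)), ∏ v, (s (u v) * cnt w (u v) : ℝ) =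
      ∏ v, ((n : ℝ) * tau s w (w v)) := by
    have e : (Finset.univ.filter fun u : Fin n → Fin 5 => ∀ v, nr (w v) (u v)) =
        Fintype.piFinset fun v => Finset.univ.filter fun j => nr (w v) j := by
      ext u
      simp only [Finset.mem_filter, Finset.mem_univ, true_and, Fintype.mem_piFinset]
    rw [e, ← Finset.prod_univ_sum (fun v => Finset.univ.filter fun j => nr (w v) j) (fun _ j => (s j * cnt w j : ℝ))]
    refine Finset.prod_congr rfl fun v _ => ?_
    rw [sum_filter_nr]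
    unfold tau
    field_simp
  rw [h2, h3, Finset.prod_mul_distrib] at h1
  have hc : 0 < ∏ v, (cnt w (w v) : ℝ) := Finset.prod_pos fun v _ => by exact_mod_cast cnt_pos w v
  have hS : 0 < ∏ v, s (w v) := Finset.prod_pos fun v _ => hs _
  have hT : 0 ≤ ∏ v, tau s w (w v) := Finset.prod_nonneg fun v _ => tau_nonneg hs w _
  have h4 := prod_fact hn w
  have h5 : ∏ v, ((n : ℝ) * tau s w (w v)) = (n : ℝ) ^ n * ∏ v, tau s w (w v) := by
    rw [Finset.prod_mul_distrib, Finset.prod_const, Finset.card_univ, Fintype.card_fin]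
  rw [h5] at h1
  have h6 : (1 / Real.exp 1) ^ n * (n : ℝ) ^ n ≤ n.factorial := by
    refine le_trans (le_of_eq ?_) (le_fact n hn)
    rw [← mul_pow]
    congr 1
    ring
  rw [Finset.prod_div_distrib]
  rw [← mul_div_assoc, le_div_iff₀ hS]
  set A : ℝ := ((Finset.univ.filter fun σ : Equiv.Perm (Fin n) => ∀ v, nr (w v) (w (σ v))).card : ℝ)
  have h7 : A * (∏ v, s (w v)) * ∏ v, (cnt w (w v) : ℝ) ≤
      ((Real.exp 1 * √n) ^ 5 * n.factorial * ∏ v, tau s w (w v)) * ∏ v, (cnt w (w v) : ℝ) := by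
    calc A * (∏ v, s (w v)) * ∏ v, (cnt w (w v) : ℝ) = A * ((∏ v, s (w v)) * ∏ v, (cnt w (w v) : ℝ)) := by ring
      _ ≤ ((∏ i, (cnt w i).factorial : ℕ) : ℝ) * ((n : ℝ) ^ n * ∏ v, tau s w (w v)) := h1
      _ ≤ ((Real.exp 1 * √n) ^ 5 * ((1 / Real.exp 1) ^ n * ∏ v, (cnt w (w v) : ℝ))) * ((n : ℝ) ^ n * ∏ v, tau s w (w v)) :=
          mul_le_mul_of_nonneg_right h4 (mul_nonneg (by positivity) hT)
      _ = (Real.exp 1 * √n) ^ 5 * ((1 / Real.exp 1) ^ n * (n : ℝ) ^ n) * ((∏ v, tau s w (w v)) * ∏ v, (cnt w (w v) : ℝ)) := by ring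
      _ ≤ (Real.exp 1 * √n) ^ 5 * n.factorial * ((∏ v, tau s w (w v)) * ∏ v, (cnt w (w v) : ℝ)) :=
          mul_le_mul_of_nonneg_right (mul_le_mul_of_nonneg_left h6 (by positivity)) (mul_nonneg hT hc.le)
      _ = ((Real.exp 1 * √n) ^ 5 * n.factorial * ∏ v, tau s w (w v)) * ∏ v, (cnt w (w v) : ℝ) := by ring
  exact le_of_mul_le_mul_right h7 hc

end Pool.Agent.MP_fb5c70_coU
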