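import Pool.Agent.Lib.MP_fb5c70_coU.Defs

/-!
# Counting permutations

For a word `w` and positive weights `z`: the number of the permutations `σ` such that `w ∘ σ` is in a set `P` of words is at most `∏ (cnt w i)! * ∑_{u ∈ P} ∏_v z (u v) / ∏_v z (w v)`.
-/

set_option autoImplicit false

open scoped BigOperators

namespace Pool.Agent.MP_fb5c70_coU

theorem cnt_comp {n : ℕ} (w : Fin n → Fin 5) (σ : Equiv.Perm (Fin n)) (i : Fin 5) : cnt (w ∘ σ) i = cnt w i := by
  unfold cnt
  refine Finset.card_bij (fun v _ => σ v) ?_ ?_ ?_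
  · intro v hv
    simpa using hv
  · intro a _ b _ h
    exact σ.injective h
  · intro b hb
    refine ⟨σ.symm b, ?_, σ.apply_symm_apply b⟩
    simpa using hb

/-- The number of the permutations with `w ∘ σ = u`. -/
theorem card_fiber {n : ℕ} (w u : Fin n → Fin 5) :
    (Finset.univ.filter fun σ : Equiv.Perm (Fin n) => w ∘ σ = u).card ≤ ∏ i, (cnt w i).factorial := by
  rcases (Finset.univ.filter fun σ : Equiv.Perm (Fin n) => w ∘ σ = u).eq_empty_or_nonempty with h | ⟨σ₀, h₀⟩
  · rw [h, Finset.card_empty]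
    exact Nat.zero_le _
  · have h0 : w ∘ σ₀ = u := (Finset.mem_filter.1 h₀).2
    have h1 : (Finset.univ.filter fun σ : Equiv.Perm (Fin n) => w ∘ σ = u).card ≤
        (Finset.univ.filter fun τ : Equiv.Perm (Fin n) => w ∘ τ = w).card := by
      refine Finset.card_le_card_of_injOn (fun σ => σ * σ₀⁻¹) ?_ ?_
      · intro σ hσ
        have h2 : w ∘ σ = u := by simpa using hσ
        simp only [Finset.coe_filter, Finset.mem_univ, true_and, Set.mem_ofPred_eq]
        funext v
        show w (σ (σ₀⁻¹ v)) = w v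
        have h3 := congrFun h2 (σ₀⁻¹ v)
        have h4 := congrFun h0 (σ₀⁻¹ v)
        simp only [Function.comp] at h3 h4
        rw [h3, ← h4]
        simp
      · intro a _ b _ h
        exact mul_right_cancel h
    refine h1.trans (le_of_eq ?_)
    have h2 := DomMulAct.stabilizer_card (α := Fin n) w
    rw [← Fintype.card_subtype]
    have h3 : Fintype.card {τ : Equiv.Perm (Fin n) // w ∘ τ = w} = Fintype.card {τ : Equiv.Perm (Fin n) // w ∘ τ = w} := rfl
    refine h2.trans ?_
    refine Finset.prod_congr rfl fun i _ => ?_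
    congr 1
    unfold cnt
    rw [Fintype.card_subtype]

theorem prod_word {n : ℕ} (w : Fin n → Fin 5) (z : Fin 5 → ℝ) : ∏ v, z (w v) = ∏ i, z i ^ cnt w i := by
  rw [← Finset.prod_fiberwise (s := Finset.univ) (g := w)]
  refine Finset.prod_congr rfl fun i _ => ?_
  rw [Finset.prod_congr rfl (g := fun _ => z i)]
  · rw [Finset.prod_const]
    rfl
  · intro v hv
    rw [(Finset.mem_filter.1 hv).2]

theorem card_perm {n : ℕ} (w : Fin n → Fin 5) (P : Finset (Fin n → Fin 5)) (z : Fin 5 → ℝ) (hz : ∀ i, 0 ≤ z i) :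
    ((Finset.univ.filter fun σ : Equiv.Perm (Fin n) => w ∘ σ ∈ P).card : ℝ) * ∏ v, z (w v) ≤
      (∏ i, (cnt w i).factorial : ℕ) * ∑ u ∈ P, ∏ v, z (u v) := by
  have h1 : (Finset.univ.filter fun σ : Equiv.Perm (Fin n) => w ∘ σ ∈ P).card =
      ∑ u ∈ P, (Finset.univ.filter fun σ : Equiv.Perm (Fin n) => w ∘ σ = u).card := by
    rw [Finset.card_eq_sum_card_fiberwise (f := fun σ : Equiv.Perm (Fin n) => w ∘ σ) (t := P)]
    · refine Finset.sum_congr rfl fun u hu => ?_
      congr 1
      ext σ
      simp only [Finset.mem_filter, Finset.mem_univ, true_and]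
      constructor
      · exact fun h => h.2
      · intro h
        exact ⟨by rw [h]; exact hu, h⟩
    · intro σ hσ
      simpa using hσ
  rw [h1]
  push_cast
  rw [Finset.sum_mul, Finset.mul_sum]
  refine Finset.sum_le_sum fun u _ => ?_
  by_cases hu : ∃ σ : Equiv.Perm (Fin n), w ∘ σ = u
  · obtain ⟨σ, hσ⟩ := hu
    have h2 : ∏ v, z (u v) = ∏ v, z (w v) := by
      rw [prod_word, prod_word]
      refine Finset.prod_congr rfl fun i _ => ?_
      rw [← hσ, cnt_comp]
    rw [h2]
    refine mul_le_mul_of_nonneg_right ?_ (Finset.prod_nonneg fun v _ => hz _)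
    exact_mod_cast card_fiber w u
  · have h2 : (Finset.univ.filter fun σ : Equiv.Perm (Fin n) => w ∘ σ = u) = ∅ := by
      rw [Finset.filter_eq_empty_iff]
      exact fun σ _ h => hu ⟨σ, h⟩
    rw [h2, Finset.card_empty, Nat.cast_zero, zero_mul]
    exact mul_nonneg (Finset.prod_nonneg fun i _ => Nat.cast_nonneg _) (Finset.prod_nonneg fun v _ => hz _)

end Pool.Agent.MP_fb5c70_coU
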