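import Pool.Agent.Lib.MP_fb5c70_coU.Defs

/-!
# The sum over the words

If `r i (t i + t (i + 2) + t (i + 3)) ≤ t i` and `r i ≤ M t i` then the sum of `∏ v, r (w v)` over the words without adjacent consecutive letters is at most `M ∑ t`.
-/

set_option autoImplicit false

open scoped BigOperators

namespace Pool.Agent.MP_fb5c70_coU

theorem pok_cons {n : ℕ} (a : Fin 5) (w : Fin (n + 1) → Fin 5) : POk (Fin.cons a w : Fin (n + 2) → Fin 5) ↔ nr a (w 0) ∧ POk w := by
  constructor
  · intro h
    refine ⟨?_, fun v v' hv => ?_⟩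
    · have := h 0 1 (by simp)
      rw [Fin.cons_zero, show (1 : Fin (n + 2)) = Fin.succ 0 from rfl, Fin.cons_succ] at this
      exact this
    · have := h v.succ v'.succ (by simp only [Fin.val_succ]; omega)
      rw [Fin.cons_succ, Fin.cons_succ] at this
      exact this
  · rintro ⟨h0, h⟩ v v' hv
    obtain ⟨u', rfl⟩ : ∃ u' : Fin (n + 1), v' = u'.succ := by
      refine ⟨v'.pred ?_, (Fin.succ_pred _ _).symm⟩
      intro h
      rw [h] at hv
      simp at hv
    rw [Fin.cons_succ]
    rcases Fin.eq_zero_or_eq_succ v with rfl | ⟨u, rfl⟩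
    · have : u' = 0 := by
        apply Fin.ext
        simp only [Fin.val_zero, Fin.val_succ] at hv ⊢
        omega
      rw [this, Fin.cons_zero]
      exact h0
    · rw [Fin.cons_succ]
      apply h
      simp only [Fin.val_succ] at hv
      omega

/-- The sum over the words with first letter `i`. -/
noncomputable def S (r : Fin 5 → ℝ) (n : ℕ) (i : Fin 5) : ℝ :=
  ∑ w : Fin (n + 1) → Fin 5, if w 0 = i ∧ POk w then ∏ v, r (w v) else 0

theorem S_succ (r : Fin 5 → ℝ) (n : ℕ) (i : Fin 5) : S r (n + 1) i = r i * (S r n i + S r n (i + 2) + S r n (i + 3)) := by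
  have h1 : S r (n + 1) i = ∑ a : Fin 5, ∑ w : Fin (n + 1) → Fin 5, if a = i ∧ nr a (w 0) ∧ POk w then r a * ∏ v, r (w v) else 0 := by
    unfold S
    rw [← (Fin.consEquiv fun _ : Fin (n + 2) => Fin 5).sum_comp, Fintype.sum_prod_type]
    refine Finset.sum_congr rfl fun a _ => Finset.sum_congr rfl fun w _ => ?_
    have e : (Fin.consEquiv fun _ : Fin (n + 2) => Fin 5) (a, w) = (Fin.cons a w : Fin (n + 2) → Fin 5) := rfl
    rw [e, Fin.prod_univ_succ, Fin.cons_zero]
    simp only [Fin.cons_succ, pok_cons]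
  rw [h1, Finset.sum_eq_single i]
  · have h2 : ∀ w : Fin (n + 1) → Fin 5, (if i = i ∧ nr i (w 0) ∧ POk w then r i * ∏ v, r (w v) else 0) =
        r i * ∑ j ∈ Finset.univ.filter (fun j => nr i j), if w 0 = j ∧ POk w then ∏ v, r (w v) else 0 := by
      intro w
      rw [Finset.mul_sum]
      by_cases hw : nr i (w 0) ∧ POk w
      · rw [if_pos ⟨rfl, hw⟩, Finset.sum_eq_single (w 0)]
        · rw [if_pos ⟨rfl, hw.2⟩]
        · intro j _ hj
          rw [if_neg (fun h => hj h.1.symm), mul_zero]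
        · intro h
          exact absurd (Finset.mem_filter.2 ⟨Finset.mem_univ _, hw.1⟩) h
      · rw [if_neg (fun h => hw h.2)]
        symm
        apply Finset.sum_eq_zero
        intro j hj
        rw [if_neg, mul_zero]
        rintro ⟨h, h'⟩
        rw [← h] at hj
        exact hw ⟨(Finset.mem_filter.1 hj).2, h'⟩
    rw [Finset.sum_congr rfl fun w _ => h2 w, ← Finset.mul_sum, Finset.sum_comm, nr_filter]
    have h3 : i ≠ i + 2 ∧ i ≠ i + 3 ∧ i + 2 ≠ i + 3 := by
      clear h1 h2
      revert i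
      decide
    rw [Finset.sum_insert, Finset.sum_insert, Finset.sum_singleton, ← add_assoc]
    · rfl
    · simp only [Finset.mem_singleton]
      exact h3.2.2
    · simp only [Finset.mem_insert, Finset.mem_singleton, not_or]
      exact ⟨h3.1, h3.2.1⟩
  · intro a _ ha
    apply Finset.sum_eq_zero
    intro w _
    rw [if_neg (fun h => ha h.1)]
  · intro h
    exact absurd (Finset.mem_univ _) h

theorem S_le (r t : Fin 5 → ℝ) (M : ℝ) (hr : ∀ i, 0 ≤ r i) (hM : 0 ≤ M) (h0 : ∀ i, r i ≤ M * t i)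
    (h1 : ∀ i, r i * (t i + t (i + 2) + t (i + 3)) ≤ t i) (n : ℕ) : ∀ i, S r n i ≤ M * t i := by
  induction n with
  | zero =>
    intro i
    refine le_trans (le_of_eq ?_) (h0 i)
    unfold S
    rw [Finset.sum_eq_single (fun _ => i)]
    · rw [if_pos]
      · simp
      · refine ⟨rfl, fun v v' h => ?_⟩
        exfalso
        omega
    · intro w _ hw
      rw [if_neg]
      rintro ⟨h, _⟩
      apply hw
      funext v
      rw [← h]
      exact congrArg w (Fin.ext (by simp only [Fin.val_zero]; omega))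
    · intro h
      exact absurd (Finset.mem_univ _) h
  | succ n ih =>
    intro i
    rw [S_succ]
    calc r i * (S r n i + S r n (i + 2) + S r n (i + 3)) ≤ r i * (M * t i + M * t (i + 2) + M * t (i + 3)) :=
          mul_le_mul_of_nonneg_left (add_le_add (add_le_add (ih _) (ih _)) (ih _)) (hr i)
      _ = M * (r i * (t i + t (i + 2) + t (i + 3))) := by ring
      _ ≤ M * t i := mul_le_mul_of_nonneg_left (h1 i) hM

theorem sum_words (r t : Fin 5 → ℝ) (M : ℝ) (hr : ∀ i, 0 ≤ r i) (hM : 0 ≤ M) (h0 : ∀ i, r i ≤ M * t i)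
    (h1 : ∀ i, r i * (t i + t (i + 2) + t (i + 3)) ≤ t i) (n : ℕ) (hn : 0 < n) :
    ∑ w ∈ Finset.univ.filter (fun w : Fin n → Fin 5 => POk w), ∏ v, r (w v) ≤ M * ∑ i, t i := by
  obtain ⟨n, rfl⟩ : ∃ m, n = m + 1 := ⟨n - 1, by omega⟩
  have h : ∑ w ∈ Finset.univ.filter (fun w : Fin (n + 1) → Fin 5 => POk w), ∏ v, r (w v) = ∑ i, S r n i := by
    unfold S
    rw [Finset.sum_comm, Finset.sum_filter]
    refine Finset.sum_congr rfl fun w _ => ?_
    rw [Finset.sum_eq_single (w 0)]
    · by_cases hw : POk w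
      · rw [if_pos hw, if_pos ⟨rfl, hw⟩]
      · rw [if_neg hw, if_neg (fun h => hw h.2)]
    · intro j _ hj
      rw [if_neg (fun h => hj h.1.symm)]
    · intro h
      exact absurd (Finset.mem_univ _) h
  rw [h, Finset.mul_sum]
  exact Finset.sum_le_sum fun i _ => S_le r t M hr hM h0 h1 n i

end Pool.Agent.MP_fb5c70_coU
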