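import Pool.Agent.Lib.MP_fb5c70_coU.Word
import Pool.Agent.Lib.MP_fb5c70_coU.Transfer

/-!
# The sum over the words is less than one
-/

set_option autoImplicit false

open scoped BigOperators

namespace Pool.Agent.MP_fb5c70_coU

theorem sum_p (p : Fin 5 × Bool) (n : ℕ) (hn : 0 < n) :
    ∑ w ∈ Finset.univ.filter (fun w : Fin n → Fin 5 => POk w), ∏ v, rB ((sg p).symm (w v)) ≤ 1051 / 301 := by
  have h := sum_words (fun i => rB ((sg p).symm i)) (fun i => tB ((sg p).symm i)) (1 / 301) ?_ (by norm_num) ?_ ?_ n hn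
  · refine h.trans (le_of_eq ?_)
    rw [Equiv.sum_comp (sg p).symm tB, Fin.sum_univ_five]
    have t0 : tB 0 = 350 := rfl
    have t1 : tB 1 = 1 := rfl
    have t2 : tB 2 = 400 := rfl
    have t3 : tB 3 = 250 := rfl
    have t4 : tB 4 = 50 := rfl
    rw [t0, t1, t2, t3, t4]
    norm_num
  · intro i
    show 0 ≤ rB ((sg p).symm i)
    generalize (sg p).symm i = j
    fin_cases j <;> simp [rB] <;> norm_num
  · intro i
    show rB ((sg p).symm i) ≤ 1 / 301 * tB ((sg p).symm i)
    generalize (sg p).symm i = j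
    fin_cases j <;> simp [rB, tB] <;> norm_num
  · intro i
    obtain ⟨j, rfl⟩ := (sg p).surjective i
    show rB ((sg p).symm (sg p j)) * (tB ((sg p).symm (sg p j)) + tB ((sg p).symm (sg p j + 2)) + tB ((sg p).symm (sg p j + 3))) ≤ tB ((sg p).symm (sg p j))
    have h : rB j * (tB j + tB (j + 2) + tB (j + 3)) ≤ tB j := by
      fin_cases j
      · show (7 / 20 : ℝ) * (350 + 400 + 250) ≤ 350
        norm_num
      · show (1 / 301 : ℝ) * (1 + 250 + 50) ≤ 1
        norm_num
      · show (1 / 2 : ℝ) * (400 + 50 + 350) ≤ 400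
        norm_num
      · show (250 / 601 : ℝ) * (250 + 350 + 1) ≤ 250
        norm_num
      · show (50 / 451 : ℝ) * (50 + 1 + 400) ≤ 50
        norm_num
    rw [(sg p).symm_apply_apply]
    rcases sg_add p j with ⟨h1, h2⟩ | ⟨h1, h2⟩
    · rw [← h1, ← h2, (sg p).symm_apply_apply, (sg p).symm_apply_apply]
      exact h
    · rw [← h1, ← h2, (sg p).symm_apply_apply, (sg p).symm_apply_apply, add_assoc, add_comm (tB (j + 3)), ← add_assoc]
      exact h

/-- The words of the embeddings. -/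
def Wd (n : ℕ) : Finset (Fin n → Fin 5) := Finset.univ.filter fun w => POk w ∧ ∀ i, 5 * cnt w i ≤ 2 * n + 3

theorem total {n : ℕ} (hn : 150 ≤ n) : ∑ w ∈ Wd n, ∏ v, ((dn w (w v) : ℝ) / n) ^ 5 < 1 := by
  have hn0 : 0 < n := by omega
  have hr : ∀ i, 0 ≤ rB i := by
    intro i
    fin_cases i <;> simp [rB] <;> norm_num
  have h1 : ∑ w ∈ Wd n, ∏ v, ((dn w (w v) : ℝ) / n) ^ 5 ≤
      ∑ w ∈ Finset.univ.filter (fun w : Fin n → Fin 5 => POk w), ((∏ _v : Fin n, (1 / 3 : ℝ)) * Real.exp (-(33 / 2000 * n)) +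
        ∑ p : Fin 5 × Bool, (∏ v, rB ((sg p).symm (w v))) * Real.exp (-(37 / 1000 * n))) := by
    refine le_trans (Finset.sum_le_sum fun w hw => word_est hn w (Finset.mem_filter.1 hw).2.2) ?_
    refine Finset.sum_le_sum_of_subset_of_nonneg ?_ fun w _ _ => ?_
    · intro w hw
      exact Finset.mem_filter.2 ⟨Finset.mem_univ _, (Finset.mem_filter.1 hw).2.1⟩
    · refine add_nonneg (mul_nonneg (Finset.prod_nonneg fun v _ => by norm_num) (Real.exp_pos _).le)
        (Finset.sum_nonneg fun p _ => mul_nonneg (Finset.prod_nonneg fun v _ => hr _) (Real.exp_pos _).le)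
  have h2 : ∑ w ∈ Finset.univ.filter (fun w : Fin n → Fin 5 => POk w), ∏ v, (fun _ : Fin 5 => (1 / 3 : ℝ)) (w v) ≤ 1 / 3 * ∑ _i : Fin 5, (1 : ℝ) :=
    sum_words (fun _ => 1 / 3) (fun _ => 1) (1 / 3) (fun _ => by norm_num) (by norm_num) (fun _ => by norm_num) (fun _ => by norm_num) n hn0
  have h3 : ∑ w ∈ Finset.univ.filter (fun w : Fin n → Fin 5 => POk w), ((∏ _v : Fin n, (1 / 3 : ℝ)) * Real.exp (-(33 / 2000 * n)) +
        ∑ p : Fin 5 × Bool, (∏ v, rB ((sg p).symm (w v))) * Real.exp (-(37 / 1000 * n))) ≤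
      5 / 3 * Real.exp (-(33 / 2000 * n)) + 10 * (1051 / 301) * Real.exp (-(37 / 1000 * n)) := by
    rw [Finset.sum_add_distrib, ← Finset.sum_mul, Finset.sum_comm]
    refine add_le_add (mul_le_mul_of_nonneg_right (h2.trans (le_of_eq ?_)) (Real.exp_pos _).le) ?_
    · simp
      norm_num
    · calc ∑ p : Fin 5 × Bool, ∑ w ∈ Finset.univ.filter (fun w : Fin n → Fin 5 => POk w), (∏ v, rB ((sg p).symm (w v))) * Real.exp (-(37 / 1000 * n))
          ≤ ∑ _p : Fin 5 × Bool, 1051 / 301 * Real.exp (-(37 / 1000 * (n : ℝ))) := by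
            refine Finset.sum_le_sum fun p _ => ?_
            rw [← Finset.sum_mul]
            exact mul_le_mul_of_nonneg_right (sum_p p n hn0) (Real.exp_pos _).le
        _ = 10 * (1051 / 301) * Real.exp (-(37 / 1000 * n)) := by
            rw [Finset.sum_const, Finset.card_univ]
            simp
            ring
  refine lt_of_le_of_lt (h1.trans h3) ?_
  have hn' : (150 : ℝ) ≤ n := by exact_mod_cast hn
  have e1 : Real.exp (-(33 / 2000 * (n : ℝ))) ≤ 1 / 6 := by
    have h4 : (6 : ℝ) ≤ Real.exp (33 / 2000 * 150) := by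
      have := Real.quadratic_le_exp_of_nonneg (show (0 : ℝ) ≤ 33 / 2000 * 150 by norm_num)
      norm_num at this ⊢
      linarith
    rw [Real.exp_neg, ← one_div]
    refine one_div_le_one_div_of_le (by norm_num) (h4.trans (Real.exp_le_exp.2 ?_))
    linarith
  have e2 : Real.exp (-(37 / 1000 * (n : ℝ))) ≤ 1 / 64 := by
    have h4 : (64 : ℝ) ≤ Real.exp (37 / 1000 * 150) := by
      have h5 := Real.quadratic_le_exp_of_nonneg (show (0 : ℝ) ≤ 37 / 20 by norm_num)
      have h6 : (4 : ℝ) ≤ Real.exp (37 / 20) := by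
        norm_num at h5 ⊢
        linarith
      have h7 := pow_le_pow_left₀ (by norm_num : (0 : ℝ) ≤ 4) h6 3
      rw [← Real.exp_nat_mul] at h7
      norm_num at h7 ⊢
      exact h7
    rw [Real.exp_neg, ← one_div]
    refine one_div_le_one_div_of_le (by norm_num) (h4.trans (Real.exp_le_exp.2 ?_))
    linarith
  linarith

end Pool.Agent.MP_fb5c70_coU
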