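import Pool.Agent.Lib.MP_fb5c70_coU.WordB
import Pool.Agent.Lib.MP_fb5c70_coU.Total

/-!
# The sum over the words is less than one: permutations and a matching
-/

set_option autoImplicit false

open scoped BigOperators

namespace Pool.Agent.MP_fb5c70_coU

theorem sum_pC (p : Fin 5 × Bool) (n : ℕ) (hn : 0 < n) :
    ∑ w ∈ Finset.univ.filter (fun w : Fin n → Fin 5 => POk w), ∏ v, rC ((sg p).symm (w v)) ≤ 856 / 246 := by
  have h := sum_words (fun i => rC ((sg p).symm i)) (fun i => tC ((sg p).symm i)) (1 / 246) ?_ (by norm_num) ?_ ?_ n hn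
  · refine h.trans (le_of_eq ?_)
    rw [Equiv.sum_comp (sg p).symm tC, Fin.sum_univ_five]
    have t0 : tC 0 = 280 := rfl
    have t1 : tC 1 = 1 := rfl
    have t2 : tC 2 = 330 := rfl
    have t3 : tC 3 = 190 := rfl
    have t4 : tC 4 = 55 := rfl
    rw [t0, t1, t2, t3, t4]
    norm_num
  · exact fun i => rC_nonneg _
  · intro i
    show rC ((sg p).symm i) ≤ 1 / 246 * tC ((sg p).symm i)
    generalize (sg p).symm i = j
    fin_cases j <;> simp [rC, tC] <;> norm_num
  · intro i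
    obtain ⟨j, rfl⟩ := (sg p).surjective i
    show rC ((sg p).symm (sg p j)) * (tC ((sg p).symm (sg p j)) + tC ((sg p).symm (sg p j + 2)) + tC ((sg p).symm (sg p j + 3))) ≤ tC ((sg p).symm (sg p j))
    have h : rC j * (tC j + tC (j + 2) + tC (j + 3)) ≤ tC j := by
      fin_cases j
      · show (7 / 20 : ℝ) * (280 + 330 + 190) ≤ 280
        norm_num
      · show (1 / 246 : ℝ) * (1 + 190 + 55) ≤ 1
        norm_num
      · show (66 / 133 : ℝ) * (330 + 55 + 280) ≤ 330
        norm_num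
      · show (190 / 471 : ℝ) * (190 + 280 + 1) ≤ 190
        norm_num
      · show (55 / 386 : ℝ) * (55 + 1 + 330) ≤ 55
        norm_num
    rw [(sg p).symm_apply_apply]
    rcases sg_add p j with ⟨h1, h2⟩ | ⟨h1, h2⟩
    · rw [← h1, ← h2, (sg p).symm_apply_apply, (sg p).symm_apply_apply]
      exact h
    · rw [← h1, ← h2, (sg p).symm_apply_apply, (sg p).symm_apply_apply, add_assoc, add_comm (tC (j + 3)), ← add_assoc]
      exact h

theorem sqrt_le (n : ℕ) : √(n : ℝ) ≤ Real.exp (438 / 125 + n / 6000) := by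
  rw [Real.sqrt_le_iff]
  refine ⟨(Real.exp_pos _).le, ?_⟩
  rw [← Real.exp_nat_mul]
  have h1 : (3000 : ℝ) ≤ Real.exp (1001 / 125) := by
    have h2 := Real.exp_one_gt_d9
    have h3 := Real.add_one_le_exp (1 / 125 : ℝ)
    have h4 : (2.7182818283 : ℝ) ^ 8 ≤ Real.exp 1 ^ 8 := pow_le_pow_left₀ (by norm_num) h2.le 8
    have h5 : Real.exp (1001 / 125) = Real.exp 1 ^ 8 * Real.exp (1 / 125) := by
      rw [← Real.exp_nat_mul, ← Real.exp_add]
      norm_num
    rw [h5]
    have h6 : (2.7182818283 : ℝ) ^ 8 * (1 / 125 + 1) ≤ Real.exp 1 ^ 8 * Real.exp (1 / 125) :=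
      mul_le_mul h4 h3 (by norm_num) (by positivity)
    norm_num at h6 ⊢
    linarith
  have h2 : (n : ℝ) / 3000 ≤ Real.exp (n / 3000 - 1) := by
    have := Real.add_one_le_exp ((n : ℝ) / 3000 - 1)
    linarith
  calc (n : ℝ) = 3000 * (n / 3000) := by ring
    _ ≤ Real.exp (1001 / 125) * Real.exp (n / 3000 - 1) := mul_le_mul h1 h2 (by positivity) (Real.exp_pos _).le
    _ = Real.exp (((2 : ℕ) : ℝ) * (438 / 125 + n / 6000)) := by
        rw [← Real.exp_add]
        congr 1
        push_cast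
        ring

theorem final_num {n : ℕ} (hn : 3000 ≤ n) :
    2 * (Real.exp 1 * √n) ^ 25 * ((5 / 3 + 10 * (856 / 246)) * (Real.exp (7 / 10) * Real.exp (-(47 / 1000 * (n : ℝ))))) < 1 := by
  have h1 : (Real.exp 1 * √n) ^ 25 ≤ Real.exp (563 / 5 + n / 240) := by
    calc (Real.exp 1 * √n) ^ 25 ≤ (Real.exp 1 * Real.exp (438 / 125 + n / 6000)) ^ 25 :=
          pow_le_pow_left₀ (by positivity) (mul_le_mul_of_nonneg_left (sqrt_le n) (Real.exp_pos _).le) 25
      _ = Real.exp (563 / 5 + n / 240) := by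
          rw [← Real.exp_add, ← Real.exp_nat_mul]
          congr 1
          push_cast
          ring
  have h2 : (74 : ℝ) ≤ Real.exp 5 := by
    have h2 := Real.exp_one_gt_d9
    have h4 : (2.7182818283 : ℝ) ^ 5 ≤ Real.exp 1 ^ 5 := pow_le_pow_left₀ (by norm_num) h2.le 5
    rw [← Real.exp_nat_mul] at h4
    norm_num at h4 ⊢
    linarith
  have hn' : (3000 : ℝ) ≤ n := by exact_mod_cast hn
  have h0 : 0 ≤ Real.exp (7 / 10) * Real.exp (-(47 / 1000 * (n : ℝ))) := by positivity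
  calc 2 * (Real.exp 1 * √n) ^ 25 * ((5 / 3 + 10 * (856 / 246)) * (Real.exp (7 / 10) * Real.exp (-(47 / 1000 * (n : ℝ)))))
      = (2 * (5 / 3 + 10 * (856 / 246))) * ((Real.exp 1 * √n) ^ 25 * (Real.exp (7 / 10) * Real.exp (-(47 / 1000 * (n : ℝ))))) := by ring
    _ ≤ 74 * (Real.exp (563 / 5 + n / 240) * (Real.exp (7 / 10) * Real.exp (-(47 / 1000 * (n : ℝ))))) := by
        refine mul_le_mul (by norm_num) (mul_le_mul_of_nonneg_right h1 h0) (by positivity) (by norm_num)
    _ ≤ Real.exp 5 * (Real.exp (563 / 5 + n / 240) * (Real.exp (7 / 10) * Real.exp (-(47 / 1000 * (n : ℝ))))) :=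
        mul_le_mul_of_nonneg_right h2 (by positivity)
    _ = Real.exp (5 + (563 / 5 + n / 240 + (7 / 10 + -(47 / 1000 * (n : ℝ))))) := by
        rw [← Real.exp_add, ← Real.exp_add, ← Real.exp_add]
    _ < 1 := by
        rw [Real.exp_lt_one_iff]
        linarith

end Pool.Agent.MP_fb5c70_coU
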