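import Pool.Agent.Lib.MP_fb5c70_coU.Cell

/-!
# The estimate for all words
-/

set_option autoImplicit false

open scoped BigOperators

namespace Pool.Agent.MP_fb5c70_coU

theorem choose_sg (x : Fin 5 → ℝ) : ∃ p : Fin 5 × Bool,
    x (sg p 1) + x (sg p 4) ≤ x (sg p 0) + x (sg p 2) ∧ x (sg p 4) ≤ x (sg p 3) ∧ x (sg p 1) ≤ x (sg p 2) ∧
    x (sg p 1) + x (sg p 4) ≤ x (sg p 3) + x (sg p 0) ∧ x (sg p 3) ≤ x (sg p 2) := by
  obtain ⟨a, ha⟩ := Finite.exists_min fun i : Fin 5 => x (i + 1) + x (i + 4)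
  have h1 := ha (a + 1)
  have h2 := ha (a + 2)
  have h3 := ha (a + 3)
  have h4 := ha (a + 4)
  clear ha
  have e : a + 1 + 1 = a + 2 ∧ a + 1 + 4 = a ∧ a + 2 + 1 = a + 3 ∧ a + 2 + 4 = a + 1 ∧ a + 3 + 1 = a + 4 ∧ a + 3 + 4 = a + 2 ∧
      a + 4 + 1 = a ∧ a + 4 + 4 = a + 3 := by
    clear h1 h2 h3 h4
    revert a
    decide
  rw [e.1, e.2.1] at h1
  rw [e.2.2.1, e.2.2.2.1] at h2
  rw [e.2.2.2.2.1, e.2.2.2.2.2.1] at h3
  rw [e.2.2.2.2.2.2.1, e.2.2.2.2.2.2.2] at h4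
  rcases le_total (x (a + 3)) (x (a + 2)) with h | h
  · refine ⟨(a, true), ?_⟩
    have f : ∀ j, sg (a, true) j = a + j := fun j => rfl
    rw [f, f, f, f, f, show a + 0 = a from add_zero a]
    refine ⟨by linarith, by linarith, by linarith, by linarith, h⟩
  · refine ⟨(a, false), ?_⟩
    have f : ∀ j, sg (a, false) j = a - j := fun j => rfl
    have g : a - 1 = a + 4 ∧ a - 2 = a + 3 ∧ a - 3 = a + 2 ∧ a - 4 = a + 1 := by
      clear e h1 h2 h3 h4 h f
      revert a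
      decide
    rw [f, f, f, f, f, show a - 0 = a from sub_zero a, g.1, g.2.1, g.2.2.1, g.2.2.2]
    refine ⟨by linarith, by linarith, by linarith, by linarith, h⟩

theorem hA : ((4 : ℝ) / 5) ^ 5 ≤ 1 / 3 * Real.exp (-(33 / 2000)) := by
  have := Real.one_sub_le_exp_neg (33 / 2000)
  norm_num at this ⊢
  linarith

/-- The estimate for one word. -/
theorem word_est {n : ℕ} (hn : 150 ≤ n) (w : Fin n → Fin 5) (hcap : ∀ i, 5 * cnt w i ≤ 2 * n + 3) :
    ∏ v, ((dn w (w v) : ℝ) / n) ^ 5 ≤ (∏ _v : Fin n, (1 / 3 : ℝ)) * Real.exp (-(33 / 2000 * n)) +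
      ∑ p : Fin 5 × Bool, (∏ v, rB ((sg p).symm (w v))) * Real.exp (-(37 / 1000 * n)) := by
  have hn0 : (0 : ℝ) < n := by
    have : 0 < n := by omega
    exact_mod_cast this
  have hr : ∀ i, 0 ≤ rB i := by
    intro i
    have h1 := hB i
    have h2 := pow_pos (dB_pos i) 5
    by_contra h
    have := mul_neg_of_neg_of_pos (not_le.1 h) (Real.exp_pos (LB i))
    linarith
  set x : Fin 5 → ℝ := fun i => (cnt w i : ℝ) / n with hx
  have hcx : ∀ i, (cnt w i : ℝ) = n * x i := by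
    intro i
    rw [hx]
    field_simp
  have hd : ∀ i, (dn w i : ℝ) / n = x i + x (i + 2) + x (i + 3) := by
    intro i
    rw [dn_eq, hx]
    push_cast
    ring
  have hsum : x 0 + x 1 + x 2 + x 3 + x 4 = 1 := by
    have h := sum_cnt w
    have h' : (cnt w 0 : ℝ) + cnt w 1 + cnt w 2 + cnt w 3 + cnt w 4 = n := by exact_mod_cast h
    rw [hx]
    field_simp
    exact h'
  have hx0 : ∀ i, 0 ≤ x i := fun i => by rw [hx]; positivity
  have hx1 : ∀ i, x i ≤ 101 / 250 := by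
    intro i
    rw [hx]
    rw [div_le_iff₀ hn0]
    have h := hcap i
    have h' : 5 * (cnt w i : ℝ) ≤ 2 * n + 3 := by exact_mod_cast h
    have h'' : (150 : ℝ) ≤ n := by exact_mod_cast hn
    linarith
  by_cases hS : ∑ i, x i * (x i + x (i + 2) + x (i + 3)) ≤ 4 / 5
  · refine le_trans (est w (fun _ => 1 / 3) (fun _ => 4 / 5) (fun _ => -(33 / 2000)) (33 / 2000) (fun _ => by norm_num) (fun _ => hA) ?_)
      (le_add_of_nonneg_right (Finset.sum_nonneg fun p _ => mul_nonneg (Finset.prod_nonneg fun v _ => hr _) (Real.exp_pos _).le))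
    have h1 : ∑ i, (cnt w i : ℝ) * (-(33 / 2000) - 5 + 5 * ((dn w i : ℝ) / n) / (4 / 5)) =
        n * ((-(33 / 2000) - 5) * (x 0 + x 1 + x 2 + x 3 + x 4) + 25 / 4 * ∑ i, x i * (x i + x (i + 2) + x (i + 3))) := by
      rw [show x 0 + x 1 + x 2 + x 3 + x 4 = ∑ i, x i by rw [Fin.sum_univ_five], Finset.mul_sum, Finset.mul_sum, ← Finset.sum_add_distrib, Finset.mul_sum]
      refine Finset.sum_congr rfl fun i _ => ?_
      rw [hd, hcx]
      ring
    rw [h1, hsum]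
    nlinarith
  · obtain ⟨p, q1, q2, q3, q4, q5⟩ := choose_sg x
    refine le_trans ?_ (le_add_of_nonneg_left (mul_nonneg (Finset.prod_nonneg fun v _ => by norm_num) (Real.exp_pos _).le))
    refine le_trans ?_ (Finset.single_le_sum (f := fun p => (∏ v, rB ((sg p).symm (w v))) * Real.exp (-(37 / 1000 * (n : ℝ))))
      (fun p _ => mul_nonneg (Finset.prod_nonneg fun v _ => hr _) (Real.exp_pos _).le) (Finset.mem_univ p))
    refine est w (fun i => rB ((sg p).symm i)) (fun i => dB ((sg p).symm i)) (fun i => LB ((sg p).symm i)) (37 / 1000) (fun i => dB_pos _) (fun i => hB _) ?_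
    set y : Fin 5 → ℝ := fun j => x (sg p j) with hy
    have hdy : ∀ j, x (sg p j) + x (sg p j + 2) + x (sg p j + 3) = y j + y (j + 2) + y (j + 3) := by
      intro j
      rw [hy]
      rcases sg_add p j with ⟨h, h'⟩ | ⟨h, h'⟩
      · simp only [h, h']
      · simp only [h, h']
        ring
    have h1 : ∑ i, (cnt w i : ℝ) * (LB ((sg p).symm i) - 5 + 5 * ((dn w i : ℝ) / n) / dB ((sg p).symm i)) =
        n * ∑ j, y j * (LB j - 5 + 5 * (y j + y (j + 2) + y (j + 3)) / dB j) := by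
      rw [← Equiv.sum_comp (sg p), Finset.mul_sum]
      refine Finset.sum_congr rfl fun j _ => ?_
      rw [(sg p).symm_apply_apply, hd, hcx, hdy]
      ring
    have hsum' : y 0 + y 1 + y 2 + y 3 + y 4 = 1 := by
      have h2 : ∑ j, y j = ∑ i, x i := Equiv.sum_comp (sg p) x
      rw [Fin.sum_univ_five, Fin.sum_univ_five] at h2
      rw [h2]
      exact hsum
    have hS' : 4 / 5 < ∑ j, y j * (y j + y (j + 2) + y (j + 3)) := by
      rw [← Equiv.sum_comp (sg p)] at hS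
      rw [Finset.sum_congr rfl fun j _ => by rw [hdy j]] at hS
      exact not_le.1 hS
    rw [h1]
    have hQ : ∑ j, y j * (LB j - 5 + 5 * (y j + y (j + 2) + y (j + 3)) / dB j) ≤ -(37 / 1000) := by
      rw [Fin.sum_univ_five] at hS' ⊢
      have e0 : ((0 : Fin 5) + 2 = 2 ∧ (0 : Fin 5) + 3 = 3) ∧ ((1 : Fin 5) + 2 = 3 ∧ (1 : Fin 5) + 3 = 4) ∧
          ((2 : Fin 5) + 2 = 4 ∧ (2 : Fin 5) + 3 = 0) ∧ ((3 : Fin 5) + 2 = 0 ∧ (3 : Fin 5) + 3 = 1) ∧ ((4 : Fin 5) + 2 = 1 ∧ (4 : Fin 5) + 3 = 2) := by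
        decide
      obtain ⟨⟨a1, a2⟩, ⟨a3, a4⟩, ⟨a5, a6⟩, ⟨a7, a8⟩, ⟨a9, a10⟩⟩ := e0
      rw [a1, a2, a3, a4, a5, a6, a7, a8, a9, a10] at hS' ⊢
      have l0 : LB 0 = 21 / 20 := rfl
      have l1 : LB 1 = -(23 / 10) := rfl
      have l2 : LB 2 = -(21 / 50) := rfl
      have l3 : LB 3 = -(167 / 100) := rfl
      have l4 : LB 4 = -(63 / 50) := rfl
      have m0 : dB 0 = 1 := rfl
      have m1 : dB 1 = 1 / 5 := rfl
      have m2 : dB 2 = 4 / 5 := rfl
      have m3 : dB 3 = 3 / 5 := rfl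
      have m4 : dB 4 = 1 / 2 := rfl
      rw [l0, l1, l2, l3, l4, m0, m1, m2, m3, m4]
      have hE : y 0 * y 1 + y 1 * y 2 + y 2 * y 3 + y 3 * y 4 + y 4 * y 0 ≤ 1 / 10 := by
        have h5 : (y 0 + y 1 + y 2 + y 3 + y 4) ^ 2 = 1 := by rw [hsum']; norm_num
        nlinarith only [h5, hS']
      have key := quad (a := y 0) (b := y 1) (c := y 2) (d := y 3) (e := y 4) hsum' (hx0 _) (hx0 _) (hx0 _) (hx1 _) (hx1 _) q2 q3 q1 q4 q5 hE
      have g0 : y 0 + y 2 + y 3 = 1 - y 1 - y 4 := by linarith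
      have g1 : y 1 + y 3 + y 4 = 1 - y 0 - y 2 := by linarith
      have g2 : y 2 + y 4 + y 0 = 1 - y 1 - y 3 := by linarith
      have g3 : y 3 + y 0 + y 1 = 1 - y 2 - y 4 := by linarith
      have g4 : y 4 + y 1 + y 2 = 1 - y 3 - y 0 := by linarith
      rw [g0, g1, g2, g3, g4]
      refine le_trans (le_of_eq ?_) key
      ring
    calc (n : ℝ) * ∑ j, y j * (LB j - 5 + 5 * (y j + y (j + 2) + y (j + 3)) / dB j) ≤ n * -(37 / 1000) := mul_le_mul_of_nonneg_left hQ hn0.le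
      _ = -(37 / 1000 * n) := by ring

end Pool.Agent.MP_fb5c70_coU
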