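import Pool.Agent.Lib.MP_fb5c70_coU.CellB
import Pool.Agent.Lib.MP_fb5c70_coU.Word

/-!
# The estimate for all words: permutations and a matching
-/

set_option autoImplicit false

open scoped BigOperators

namespace Pool.Agent.MP_fb5c70_coU

theorem rC_nonneg : ∀ i, 0 ≤ rC i := by
  intro i
  fin_cases i <;> simp [rC] <;> norm_num

/-- The estimate for one word. -/
theorem word_estB {n m t : ℕ} (hn : 3000 ≤ n) (hm : 2 * m + t = n) (ht : t ≤ 1) (w : Fin n → Fin 5) (hcap : ∀ i, 5 * cnt w i ≤ 2 * n + 3) :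
    ∃ s : Fin 5 → ℝ, (∀ i, 0 < s i) ∧ (∀ i, s i ≤ 2) ∧
      (∏ v, (tau s w (w v) / s (w v))) ^ 4 * (qq s w ^ m * ∏ v, (1 / s (w v))) ≤
        ((∏ _v : Fin n, (1 / 3 : ℝ)) + ∑ p : Fin 5 × Bool, ∏ v, rC ((sg p).symm (w v))) * (Real.exp (7 / 10) * Real.exp (-(47 / 1000 * n))) := by
  have hn0 : (0 : ℝ) < n := by
    have : 0 < n := by omega
    exact_mod_cast this
  set x : Fin 5 → ℝ := fun i => (cnt w i : ℝ) / n with hx
  have hcx : ∀ i, (cnt w i : ℝ) = n * x i := by
    intro i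
    rw [hx]
    field_simp
  have htau : ∀ (s : Fin 5 → ℝ) i, tau s w i = s i * x i + s (i + 2) * x (i + 2) + s (i + 3) * x (i + 3) := by
    intro s i
    unfold tau
    rw [hx]
    field_simp
  have hsum : x 0 + x 1 + x 2 + x 3 + x 4 = 1 := by
    have h := sum_cnt w
    have h' : (cnt w 0 : ℝ) + cnt w 1 + cnt w 2 + cnt w 3 + cnt w 4 = n := by exact_mod_cast h
    rw [hx]
    field_simp
    exact h'
  have hx0 : ∀ i, 0 ≤ x i := fun i => by rw [hx]; positivity
  have hx1 : ∀ i, 0 ≤ 2001 / 5000 - x i := by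
    intro i
    rw [sub_nonneg, hx]
    rw [div_le_iff₀ hn0]
    have h := hcap i
    have h' : 5 * (cnt w i : ℝ) ≤ 2 * n + 3 := by exact_mod_cast h
    have h'' : (3000 : ℝ) ≤ n := by exact_mod_cast hn
    linarith
  have hexp : 0 ≤ Real.exp (7 / 10) * Real.exp (-(47 / 1000 * (n : ℝ))) := by positivity
  by_cases hS : ∑ i, x i * (x i + x (i + 2) + x (i + 3)) ≤ 31 / 40
  · refine ⟨fun _ => 1, fun _ => by norm_num, fun _ => by norm_num, ?_⟩
    refine le_trans (estB hm ht w (fun _ => 1 / 3) (fun _ => 31 / 40) (fun _ => 1) (fun _ => 159 / 2000) (31 / 40) (-(127 / 500)) (47 / 1000)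
      (fun _ => by norm_num) (fun _ => by norm_num) (fun _ => hA4) (by norm_num) hAk (by norm_num) ?_)
      (mul_le_mul_of_nonneg_right (le_add_of_nonneg_right (Finset.sum_nonneg fun p _ => Finset.prod_nonneg fun v _ => rC_nonneg _)) hexp)
    have hqS : qq (fun _ => 1) w = ∑ i, x i * (x i + x (i + 2) + x (i + 3)) := by
      unfold qq
      refine Finset.sum_congr rfl fun i _ => ?_
      rw [htau]
      show 1 * x i * (1 * x i + 1 * x (i + 2) + 1 * x (i + 3)) = _
      ring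
    have h1 : ∑ i, (cnt w i : ℝ) * (159 / 2000 - 4 + 4 * tau (fun _ => 1) w i / (31 / 40)) =
        n * ((159 / 2000 - 4) * (x 0 + x 1 + x 2 + x 3 + x 4) + 160 / 31 * ∑ i, x i * (x i + x (i + 2) + x (i + 3))) := by
      rw [show x 0 + x 1 + x 2 + x 3 + x 4 = ∑ i, x i by rw [Fin.sum_univ_five], Finset.mul_sum, Finset.mul_sum, ← Finset.sum_add_distrib, Finset.mul_sum]
      refine Finset.sum_congr rfl fun i _ => ?_
      rw [htau, hcx]
      ring
    rw [h1, hqS, hsum]
    nlinarith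
  · obtain ⟨p, q1, q2, q3, q4, q5⟩ := choose_sg x
    refine ⟨fun i => sC ((sg p).symm i), fun i => sC_pos _, fun i => sC_le _, ?_⟩
    refine le_trans (estB hm ht w (fun i => rC ((sg p).symm i)) (fun i => dC ((sg p).symm i)) (fun i => sC ((sg p).symm i)) (fun i => LC ((sg p).symm i))
      (113 / 100) (1223 / 10000) (47 / 1000) (fun i => dC_pos _) (fun i => sC_pos _) (fun i => hC _) (by norm_num) hCk (by norm_num) ?_)
      (mul_le_mul_of_nonneg_right (le_trans
        (Finset.single_le_sum (f := fun p => ∏ v, rC ((sg p).symm (w v))) (fun p _ => Finset.prod_nonneg fun v _ => rC_nonneg _) (Finset.mem_univ p))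
        (le_add_of_nonneg_left (Finset.prod_nonneg fun v _ => by norm_num))) hexp)
    set y : Fin 5 → ℝ := fun j => x (sg p j) with hy
    have hdy : ∀ j, tau (fun i => sC ((sg p).symm i)) w (sg p j) = sC j * y j + sC (j + 2) * y (j + 2) + sC (j + 3) * y (j + 3) := by
      intro j
      rw [htau, hy]
      rcases sg_add p j with ⟨h, h'⟩ | ⟨h, h'⟩
      · simp only [← h, ← h', (sg p).symm_apply_apply]
      · simp only [← h, ← h', (sg p).symm_apply_apply]
        ring
    have h1 : ∑ i, (cnt w i : ℝ) * (LC ((sg p).symm i) - 4 + 4 * tau (fun i => sC ((sg p).symm i)) w i / dC ((sg p).symm i)) =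
        n * ∑ j, y j * (LC j - 4 + 4 * (sC j * y j + sC (j + 2) * y (j + 2) + sC (j + 3) * y (j + 3)) / dC j) := by
      rw [← Equiv.sum_comp (sg p), Finset.mul_sum]
      refine Finset.sum_congr rfl fun j _ => ?_
      rw [(sg p).symm_apply_apply, hcx, hdy]
      ring
    have h2 : qq (fun i => sC ((sg p).symm i)) w = ∑ j, sC j * y j * (sC j * y j + sC (j + 2) * y (j + 2) + sC (j + 3) * y (j + 3)) := by
      unfold qq
      rw [← Equiv.sum_comp (sg p)]
      refine Finset.sum_congr rfl fun j _ => ?_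
      rw [hdy]
      show sC ((sg p).symm (sg p j)) * ((cnt w (sg p j) : ℝ) / n) * _ = _
      rw [(sg p).symm_apply_apply]
    have hsum' : y 0 + y 1 + y 2 + y 3 + y 4 = 1 := by
      have h2 : ∑ j, y j = ∑ i, x i := Equiv.sum_comp (sg p) x
      rw [Fin.sum_univ_five, Fin.sum_univ_five] at h2
      rw [h2]
      exact hsum
    have hS' : 31 / 40 < ∑ j, y j * (y j + y (j + 2) + y (j + 3)) := by
      have h3 : ∀ j, x (sg p j) + x (sg p j + 2) + x (sg p j + 3) = y j + y (j + 2) + y (j + 3) := by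
        intro j
        rw [hy]
        rcases sg_add p j with ⟨h, h'⟩ | ⟨h, h'⟩
        · simp only [h, h']
        · simp only [h, h']
          ring
      rw [← Equiv.sum_comp (sg p)] at hS
      rw [Finset.sum_congr rfl fun j _ => by rw [h3 j]] at hS
      exact not_le.1 hS
    rw [h1, h2]
    have hQ : ∑ j, y j * (LC j - 4 + 4 * (sC j * y j + sC (j + 2) * y (j + 2) + sC (j + 3) * y (j + 3)) / dC j) +
        1 / 2 * (1223 / 10000 - 1 + (∑ j, sC j * y j * (sC j * y j + sC (j + 2) * y (j + 2) + sC (j + 3) * y (j + 3))) / (113 / 100)) ≤ -(47 / 1000) := by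
      rw [Fin.sum_univ_five] at hS' ⊢
      rw [Fin.sum_univ_five]
      have e0 : ((0 : Fin 5) + 2 = 2 ∧ (0 : Fin 5) + 3 = 3) ∧ ((1 : Fin 5) + 2 = 3 ∧ (1 : Fin 5) + 3 = 4) ∧
          ((2 : Fin 5) + 2 = 4 ∧ (2 : Fin 5) + 3 = 0) ∧ ((3 : Fin 5) + 2 = 0 ∧ (3 : Fin 5) + 3 = 1) ∧ ((4 : Fin 5) + 2 = 1 ∧ (4 : Fin 5) + 3 = 2) := by
        decide
      obtain ⟨⟨a1, a2⟩, ⟨a3, a4⟩, ⟨a5, a6⟩, ⟨a7, a8⟩, ⟨a9, a10⟩⟩ := e0
      rw [a1, a2, a3, a4, a5, a6, a7, a8, a9, a10] at hS' ⊢
      have l0 : LC 0 = 188 / 125 := rfl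
      have l1 : LC 1 = -(112 / 125) := rfl
      have l2 : LC 2 = -(52 / 125) := rfl
      have l3 : LC 3 = -(27 / 10) := rfl
      have l4 : LC 4 = -(643 / 250) := rfl
      have m0 : dC 0 = 28 / 25 := rfl
      have m1 : dC 1 = 12 / 25 := rfl
      have m2 : dC 2 = 19 / 20 := rfl
      have m3 : dC 3 = 73 / 100 := rfl
      have m4 : dC 4 = 13 / 20 := rfl
      have s0 : sC 0 = 1 := rfl
      have s1 : sC 1 = 2 := rfl
      have s2 : sC 2 = 6 / 5 := rfl
      have s3 : sC 3 = 8 / 5 := rfl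
      have s4 : sC 4 = 7 / 4 := rfl
      rw [l0, l1, l2, l3, l4, m0, m1, m2, m3, m4, s0, s1, s2, s3, s4]
      have hE : y 0 * y 1 + y 1 * y 2 + y 2 * y 3 + y 3 * y 4 + y 4 * y 0 ≤ 9 / 80 := by
        have h5 : (y 0 + y 1 + y 2 + y 3 + y 4) ^ 2 = 1 := by rw [hsum']; norm_num
        nlinarith only [h5, hS']
      have key := quadB (a := y 0) (b := y 1) (c := y 2) (d := y 3) (e := y 4) hsum' (hx0 _) (hx0 _) (hx0 _) (hx1 _) (hx1 _)
        (sub_nonneg.2 q2) (sub_nonneg.2 q3) (by linarith) (by linarith) (sub_nonneg.2 q5) hE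
      refine le_trans (le_of_eq ?_) key
      ring
    nlinarith

end Pool.Agent.MP_fb5c70_coU
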